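import Pool.Agent.Lib.MP_6aa000_nt.NW.Harm

namespace Pool.Agent.Lib.MP_6aa000_nt.NW

open Finset Filter

theorem norm_det_le (p : ℕ) [Fact p.Prime] {ι : Type*} [Fintype ι] [DecidableEq ι]
    (B : Matrix ι ι ℚ) (u w : ι → ℚ) (h : ∀ r k, padicNorm p (B r k) ≤ u r * w k) :
    padicNorm p B.det ≤ (∏ r, u r) * ∏ k, w k := by
  rw [Matrix.det_apply']
  refine padicNorm.sum_le univ_nonempty fun σ _ => ?_
  rw [padicNorm.mul, norm_prod]
  have h1 : padicNorm p ((Equiv.Perm.sign σ : ℤ) : ℚ) ≤ 1 := padicNorm.of_int _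
  have h2 : ∏ i, padicNorm p (B (σ i) i) ≤ ∏ i, u (σ i) * w i :=
    prod_le_prod (fun i _ => padicNorm.nonneg _) fun i _ => h _ _
  rw [prod_mul_distrib, Equiv.prod_comp σ u] at h2
  have h3 : 0 ≤ ∏ i, padicNorm p (B (σ i) i) := prod_nonneg fun i _ => padicNorm.nonneg _
  calc _ ≤ 1 * ∏ i, padicNorm p (B (σ i) i) := mul_le_mul_of_nonneg_right h1 h3
    _ ≤ _ := by rw [one_mul]; exact h2

section
variable (p : ℕ) [Fact p.Prime]

/-- norm of the inverse of a natural number not divisible by a given power of p -/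
theorem norm_inv_le (m k : ℕ) (hm : ¬ p ^ (k + 1) ∣ m) :
    padicNorm p (1 / (m : ℚ)) ≤ (p : ℚ) ^ k := by
  have hp : p.Prime := Fact.out
  have hm0 : m ≠ 0 := by rintro rfl; exact hm (dvd_zero _)
  have hm1 : (m : ℚ) ≠ 0 := by exact_mod_cast hm0
  have hv : padicValNat p m ≤ k := by
    by_contra hlt
    exact hm ((padicValNat_dvd_iff_le hm0).2 (by omega))
  rw [padicNorm.div, padicNorm.one, padicNorm.eq_zpow_of_nonzero hm1, padicValRat.of_nat, zpow_neg,
    zpow_natCast, one_div, inv_inv]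
  exact pow_le_pow_right₀ (by exact_mod_cast hp.one_le) hv

theorem norm_inv_lt (m k : ℕ) (h0 : m ≠ 0) (hm : m < p ^ (k + 1)) :
    padicNorm p (1 / (m : ℚ)) ≤ (p : ℚ) ^ k :=
  norm_inv_le p m k fun h => absurd (Nat.le_of_dvd (by omega) h) (by omega)

theorem norm_inv_self (m : ℕ) (h0 : m ≠ 0) : padicNorm p (1 / (m : ℚ)) ≤ m := by
  have h1 : ¬ p ^ (padicValNat p m + 1) ∣ m := pow_succ_padicValNat_not_dvd h0
  have h2 : p ^ padicValNat p m ≤ m := Nat.le_of_dvd (by omega) pow_padicValNat_dvd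
  exact (norm_inv_le p m _ h1).trans (by exact_mod_cast h2)

theorem norm_harm (n : ℕ) (t : ℚ) (ht : 0 ≤ t)
    (h : ∀ i < n, padicNorm p (1 / ((i + 1 : ℕ) : ℚ)) ≤ t) : padicNorm p (harmonic n) ≤ t := by
  rw [harmonic]
  refine padicNorm.sum_le' (fun i hi => ?_) ht
  simpa [one_div] using h i (mem_range.1 hi)

theorem norm_harm_lt (n k : ℕ) (hn : n < p ^ (k + 1)) : padicNorm p (harmonic n) ≤ (p : ℚ) ^ k :=
  norm_harm p n _ (by positivity) fun i hi => norm_inv_lt p _ k (by omega) (by omega)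

theorem norm_harm_self (n : ℕ) : padicNorm p (harmonic n) ≤ n :=
  norm_harm p n _ (by positivity) fun i hi =>
    (norm_inv_self p _ (by omega)).trans (by exact_mod_cast hi)

theorem c_eq (j n : ℕ) : c j n = 1 / ((4 * n + j : ℕ) : ℚ) := by simp [c]

theorem a0_eq (n : ℕ) : a 0 n = 1 / ((n + 1 : ℕ) : ℚ) := by simp

theorem a_cases (i : Fin 3) (n : ℕ) : (i = 0 ∧ a i n = 1 / ((n + 1 : ℕ) : ℚ)) ∨
    (i ≠ 0 ∧ ∃ j, (j = 1 ∨ j = 3) ∧ a i n = harmonic n * (1 / ((4 * n + j : ℕ) : ℚ))) := by
  fin_cases i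
  · exact Or.inl ⟨rfl, a0_eq n⟩
  · exact Or.inr ⟨by decide, 1, Or.inl rfl, by rw [← c_eq]; exact a_one n⟩
  · exact Or.inr ⟨by decide, 3, Or.inr rfl, by rw [← c_eq]; exact a_two n⟩

omit [Fact p.Prime] in
theorem norm_unit (D : ℕ) (s : Fin 20 → ℕ) (t : Fin 20) (k : I D) :
    padicNorm p (A D s (Sum.inr t) k) ≤ 1 := by
  rw [A_inr]; split_ifs <;> simp

/-- first level: bound without any hypothesis on p -/
theorem norm_a_N (i : Fin 3) (n L : ℕ) (hL : n + 1 ≤ L) (hb : 4 * n + 3 < p ^ 2) :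
    padicNorm p (a i n) ≤ (if i = 0 then 1 else (p : ℚ)) * (if p ≤ L then (p : ℚ) else 1) := by
  have hp : p.Prime := Fact.out
  have hb' : 4 * n + 3 < p ^ (1 + 1) := hb
  rcases a_cases i n with ⟨hi, h⟩ | ⟨hi, j, hj, h⟩
  · rw [h, if_pos hi, one_mul]
    split_ifs with h1
    · simpa using norm_inv_lt p (n + 1) 1 (by omega) (by omega)
    · simpa using norm_inv_lt p (n + 1) 0 (by omega) (by simp; omega)
  · rw [h, if_neg hi, padicNorm.mul, mul_comm]
    refine mul_le_mul ?_ ?_ (padicNorm.nonneg _) (by positivity)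
    · simpa using norm_inv_lt p (4 * n + j) 1 (by omega) (by omega)
    · split_ifs with h1
      · simpa using norm_harm_lt p n 1 (by omega)
      · simpa using norm_harm_lt p n 0 (by simp; omega)

/-- bound at a Wieferich prime -/
theorem norm_a_W (hp2 : p ≠ 2) (hW : p ^ 2 ∣ 2 ^ (p - 1) - 1) (i : Fin 3) (n L : ℕ)
    (hL : n + 1 ≤ L) (hb : 4 * n + 3 < p ^ 2) :
    padicNorm p (a i n) ≤
      (if 5 * p ≤ 4 * L then (p : ℚ) else 1) * (if p ≤ L then (p : ℚ) else 1) := by
  have hp : p.Prime := Fact.out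
  have hp1 : (1 : ℚ) ≤ p := by exact_mod_cast hp.one_le
  have hb' : 4 * n + 3 < p ^ (1 + 1) := hb
  have hA : (1 : ℚ) ≤ if 5 * p ≤ 4 * L then (p : ℚ) else 1 := by split_ifs <;> simp [hp1]
  have hB : (1 : ℚ) ≤ if p ≤ L then (p : ℚ) else 1 := by split_ifs <;> simp [hp1]
  rcases a_cases i n with ⟨hi, h⟩ | ⟨hi, j, hj, h⟩
  · have h1 := norm_a_N p i n L hL hb
    rw [if_pos hi] at h1
    exact h1.trans (mul_le_mul_of_nonneg_right hA (by linarith))
  · rw [h, padicNorm.mul, mul_comm]
    by_cases hd : p ∣ 4 * n + j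
    · by_cases hn : n < p
      · have h1 := harm_wief p hp2 hW n j hj hn hd
        have h2 : padicNorm p (1 / ((4 * n + j : ℕ) : ℚ)) ≤ p := by
          simpa using norm_inv_lt p (4 * n + j) 1 (by omega) (by omega)
        have h3 := mul_le_mul h2 h1 (padicNorm.nonneg _) (by positivity)
        rw [mul_one_div_cancel (by positivity)] at h3
        exact h3.trans (one_le_mul_of_one_le_of_one_le hA hB)
      · obtain ⟨t, ht⟩ := hd
        have ht5 : 5 ≤ t := by
          by_contra h5
          have : p * t ≤ p * 4 := Nat.mul_le_mul_left _ (by omega)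
          omega
        have : p * 5 ≤ p * t := Nat.mul_le_mul_left _ ht5
        rw [if_pos (by omega), if_pos (by omega)]
        refine mul_le_mul ?_ ?_ (padicNorm.nonneg _) (by positivity)
        · simpa using norm_inv_lt p (4 * n + j) 1 (by omega) (by omega)
        · simpa using norm_harm_lt p n 1 (by omega)
    · refine mul_le_mul ?_ ?_ (padicNorm.nonneg _) (by linarith)
      · have := norm_inv_le p (4 * n + j) 0 (by simpa using hd)
        exact this.trans (by simpa using hA)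
      · split_ifs with h1
        · simpa using norm_harm_lt p n 1 (by omega)
        · simpa using norm_harm_lt p n 0 (by simp; omega)

end

theorem prod_ite_col (D : ℕ) (x : ℚ) (P : ℕ → Prop) [DecidablePred P] :
    ∏ k : I D, (if P (col k) then x else 1) = x ^ ((range (3 * D + 20)).filter P).card := by
  rw [prod_col D fun m => if P m then x else 1, ← prod_filter, prod_const]

theorem odd_N (D : ℕ) (s : Fin 20 → ℕ) (p : ℕ) [Fact p.Prime] (hb : 16 * D + 80 < p ^ 2) :
    padicNorm p (A D s).det ≤ (p : ℚ) ^ (e1 D p + 2 * D) := by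
  have hp : p.Prime := Fact.out
  have hp1 : (1 : ℚ) ≤ p := by exact_mod_cast hp.one_le
  have h := norm_det_le p (A D s)
    (Sum.elim (fun x => if x.1 = 0 then 1 else (p : ℚ)) fun _ => 1)
    (fun k => if p ≤ col k + D then (p : ℚ) else 1) (by
      rintro (x | t) k
      · have := col_lt k
        have := x.2.2
        exact norm_a_N p x.1 _ _ (by omega) (by omega)
      · refine (norm_unit p D s t k).trans ?_
        simp only [Sum.elim_inr, one_mul]
        split_ifs <;> simp [hp1])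
  rw [prod_ite_col D (p : ℚ) fun m => p ≤ m + D] at h
  refine h.trans (le_of_eq ?_)
  rw [Fintype.prod_sum_type, Fintype.prod_prod_type, Fin.prod_univ_three]
  simp [e1]
  ring

theorem odd_W (D : ℕ) (s : Fin 20 → ℕ) (p : ℕ) [Fact p.Prime] (hp : p ≠ 2)
    (hb : 16 * D + 80 < p ^ 2) (hW : p ^ 2 ∣ 2 ^ (p - 1) - 1) :
    padicNorm p (A D s).det ≤ (p : ℚ) ^ (e1 D p + e2 D p) := by
  have hpp : p.Prime := Fact.out
  have hp1 : (1 : ℚ) ≤ p := by exact_mod_cast hpp.one_le
  by_cases hc : 5 * p ≤ 4 * (2 * D + 20)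
  · have h2 : e2 D p = 2 * D := by
      have : ((range (3 * D + 20)).filter fun m => D + 20 ≤ m ∧ 5 * p ≤ 4 * (m + D)) =
          Ico (D + 20) (3 * D + 20) := by
        ext m
        simp only [mem_filter, mem_range, mem_Ico]
        omega
      rw [e2, this, Nat.card_Ico]
      omega
    rw [h2]
    exact odd_N D s p hb
  · have h := norm_det_le p (A D s) (fun _ => 1)
      (fun k => (if D + 20 ≤ col k ∧ 5 * p ≤ 4 * (col k + D) then (p : ℚ) else 1) *
        if p ≤ col k + D then (p : ℚ) else 1) (by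
        rintro (x | t) k
        · have := col_lt k
          have := x.2.2
          have h1 := norm_a_W p hp hW x.1 (x.2 + col k) (col k + D) (by omega) (by omega)
          have h2 : (D + 20 ≤ col k ∧ 5 * p ≤ 4 * (col k + D)) ↔ 5 * p ≤ 4 * (col k + D) := by
            omega
          simp only [h2, one_mul]
          exact h1
        · refine (norm_unit p D s t k).trans ?_
          rw [one_mul]
          refine one_le_mul_of_one_le_of_one_le ?_ ?_ <;> split_ifs <;> simp [hp1])
    rw [prod_mul_distrib, prod_ite_col D (p : ℚ) fun m => p ≤ m + D,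
      prod_ite_col D (p : ℚ) fun m => D + 20 ≤ m ∧ 5 * p ≤ 4 * (m + D)] at h
    refine h.trans (le_of_eq ?_)
    simp [e1, e2]
    ring

theorem odd_large (D : ℕ) (s : Fin 20 → ℕ) (p : ℕ) [Fact p.Prime] (hb : 16 * D + 80 < p) :
    padicNorm p (A D s).det ≤ 1 := by
  have h := norm_det_le p (A D s) (fun _ => 1) (fun _ => 1) (by
    rintro (x | t) k
    · have := col_lt k
      have := x.2.2
      rw [A_inl, one_mul]
      rcases a_cases x.1 (x.2 + col k) with ⟨_, h⟩ | ⟨_, j, hj, h⟩
      · rw [h]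
        simpa using norm_inv_lt p (x.2 + col k + 1) 0 (by omega) (by simp; omega)
      · rw [h, padicNorm.mul]
        refine mul_le_one₀ ?_ (padicNorm.nonneg _) ?_
        · simpa using norm_harm_lt p (x.2 + col k) 0 (by simp; omega)
        · simpa using norm_inv_lt p (4 * (x.2 + col k) + j) 0 (by omega) (by simp; omega)
    · simpa using norm_unit p D s t k)
  simpa using h

theorem odd_small (D : ℕ) (s : Fin 20 → ℕ) (p : ℕ) [Fact p.Prime] :
    padicNorm p (A D s).det ≤ (16 * (D : ℚ) + 80) ^ (6 * D) := by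
  have h := norm_det_le p (A D s)
    (Sum.elim (fun _ => (16 * (D : ℚ) + 80) ^ 2) fun _ => 1) (fun _ => 1) (by
    rintro (x | t) k
    · have := col_lt k
      have := x.2.2
      have hD : (1 : ℚ) ≤ 16 * (D : ℚ) + 80 := by
        have : (0 : ℚ) ≤ D := by positivity
        linarith
      have hc : ∀ m : ℕ, m ≤ 16 * D + 80 → (m : ℚ) ≤ 16 * (D : ℚ) + 80 := fun m hm => by
        exact_mod_cast hm
      rw [A_inl, mul_one, Sum.elim_inl]
      rcases a_cases x.1 (x.2 + col k) with ⟨_, h⟩ | ⟨_, j, hj, h⟩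
      · rw [h]
        refine ((norm_inv_self p _ (by omega)).trans (hc _ (by omega))).trans ?_
        nlinarith
      · rw [h, padicNorm.mul, sq]
        exact mul_le_mul ((norm_harm_self p _).trans (hc _ (by omega)))
          ((norm_inv_self p _ (by omega)).trans (hc _ (by omega))) (padicNorm.nonneg _)
          (by linarith)
    · simpa using norm_unit p D s t k)
  refine h.trans (le_of_eq ?_)
  rw [Fintype.prod_sum_type]
  simp [← pow_mul]
  ring

end Pool.Agent.Lib.MP_6aa000_nt.NW
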