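import Pool.Agent.Lib.MP_6aa000_nt.NW.Defs

namespace Pool.Agent.Lib.MP_6aa000_nt.NW

open Finset Filter

namespace Re

open Polynomial

/-- the linear map with given values on the monomials -/
noncomputable def lin {M : Type} [AddCommGroup M] [Module ℝ M] (f : ℕ → M) : ℝ[X] →ₗ[ℝ] M :=
  (Polynomial.basisMonomials ℝ).constr ℝ f

theorem lin_X {M : Type} [AddCommGroup M] [Module ℝ M] (f : ℕ → M) (n : ℕ) :
    lin f (X ^ n) = f n := by
  have := (Polynomial.basisMonomials ℝ).constr_basis ℝ f n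
  rw [Polynomial.coe_basisMonomials] at this
  rw [← Polynomial.monomial_one_right_eq_X_pow]
  exact this

theorem pind {p : ℝ[X] → Prop} (P : ℝ[X]) (hadd : ∀ P Q, p P → p Q → p (P + Q))
    (hm : ∀ (n : ℕ) (b : ℝ), p (b • X ^ n)) : p P := by
  induction P using Polynomial.induction_on' with
  | add P Q h1 h2 => exact hadd P Q h1 h2
  | monomial n b => rw [← Polynomial.smul_X_eq_monomial]; exact hm n b

/-- the three functionals -/
noncomputable def Lam (i : Fin 3) : ℝ[X] →ₗ[ℝ] ℝ := lin fun n => ((a i n : ℚ) : ℝ)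

theorem Lam_X (i : Fin 3) (n : ℕ) : Lam i (X ^ n) = ((a i n : ℚ) : ℝ) := lin_X _ _

theorem Lam0_X (n : ℕ) : Lam 0 (X ^ n) = 1 / ((n : ℝ) + 1) := by
  rw [Lam_X, a_zero]; push_cast; rfl

/-- the primitive -/
noncomputable def prim : ℝ[X] →ₗ[ℝ] ℝ[X] := lin fun n => (1 / ((n : ℝ) + 1)) • X ^ (n + 1)

theorem der_prim (P : ℝ[X]) : derivative (prim P) = P := by
  induction P using pind with
  | hadd P Q h1 h2 => rw [map_add, map_add, h1, h2]
  | hm n b =>
    rw [map_smul, map_smul, prim, lin_X, map_smul, derivative_X_pow_succ, ← smul_eq_C_mul,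
      smul_smul (1 / ((n : ℝ) + 1)), one_div, inv_mul_cancel₀ (by positivity), one_smul]

theorem Lam0_prim (P : ℝ[X]) : Lam 0 P = (prim P).eval 1 - (prim P).eval 0 := by
  induction P using pind with
  | hadd P Q h1 h2 => rw [map_add, map_add, h1, h2, eval_add, eval_add]; ring
  | hm n b =>
    rw [map_smul, map_smul, prim, lin_X, Lam0_X]
    simp

theorem mvt (P : ℝ[X]) {x y : ℝ} (h : x < y) :
    ∃ t ∈ Set.Ioo x y, P.eval y - P.eval x = (derivative P).eval t * (y - x) := by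
  obtain ⟨t, ht, e⟩ := exists_hasDerivAt_eq_slope (fun z => P.eval z)
    (fun z => (derivative P).eval z) h P.continuousOn (fun z _ => P.hasDerivAt z)
  refine ⟨t, ht, ?_⟩
  rw [e, div_mul_cancel₀ _ (sub_pos.mpr h).ne']

theorem Lam0_mvt (P : ℝ[X]) : ∃ t ∈ Set.Ioo (0 : ℝ) 1, Lam 0 P = P.eval t := by
  obtain ⟨t, ht, e⟩ := mvt (prim P) (show (0 : ℝ) < 1 from one_pos)
  refine ⟨t, ht, ?_⟩
  rw [Lam0_prim, e, der_prim]; ring

/-- multiplication of the coefficients by the harmonic numbers -/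
noncomputable def G : ℝ[X] →ₗ[ℝ] ℝ[X] := lin fun n => ((harmonic n : ℚ) : ℝ) • X ^ n

/-- the difference quotient -/
noncomputable def Rq (x : ℝ) : ℝ[X] →ₗ[ℝ] ℝ[X] := lin fun n => x ^ n • ∑ k ∈ range n, X ^ k

theorem G_eval (x : ℝ) (P : ℝ[X]) : (G P).eval x = Lam 0 (Rq x P) := by
  induction P using pind with
  | hadd P Q h1 h2 => rw [map_add, map_add, map_add, eval_add, h1, h2]
  | hm n b =>
    rw [map_smul, map_smul, map_smul, G, Rq, lin_X, lin_X, map_smul, map_sum]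
    simp only [Lam0_X, harmonic]
    simp [mul_comm]

theorem Rq_eval (x t : ℝ) (P : ℝ[X]) :
    (Rq x P).eval t * (1 - t) = P.eval x - P.eval (x * t) := by
  induction P using pind with
  | hadd P Q h1 h2 => rw [map_add, eval_add, eval_add, eval_add, add_mul, h1, h2]; ring
  | hm n b =>
    rw [map_smul, Rq, lin_X]
    have := geom_sum_mul_neg t n
    simp only [eval_smul, eval_finsetSum, eval_pow, eval_X, smul_eq_mul, mul_pow]
    linear_combination b * x ^ n * this

theorem G_le {P : ℝ[X]} {v : ℝ} (hv : ∀ x ∈ Set.Icc (0 : ℝ) 1, |(derivative P).eval x| ≤ v)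
    {x : ℝ} (h0 : 0 < x) (h1 : x ≤ 1) : |(G P).eval x| ≤ v := by
  obtain ⟨t, ht, e⟩ := Lam0_mvt (Rq x P)
  have h2 : x * t < x := by nlinarith [ht.2]
  have h3 : 0 < x * t := mul_pos h0 ht.1
  obtain ⟨z, hz, e2⟩ := mvt P h2
  have h4 := Rq_eval x t P
  have h5 : (Rq x P).eval t = (derivative P).eval z * x := by
    apply mul_right_cancel₀ (sub_pos.mpr ht.2).ne'
    rw [h4, e2]; ring
  have h6 := hv z ⟨by linarith [hz.1], by linarith [hz.2]⟩
  rw [G_eval, e, h5, abs_mul, abs_of_pos h0]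
  nlinarith [abs_nonneg ((derivative P).eval z)]

theorem Lam_G (i : Fin 3) (j : ℕ) (h : ∀ n, a i n = harmonic n * c (j + 1) n) (P : ℝ[X]) :
    Lam i P = Lam 0 (X ^ j * expand ℝ 4 (G P)) := by
  induction P using pind with
  | hadd P Q h1 h2 => rw [map_add, map_add, map_add, mul_add, map_add, h1, h2]
  | hm n b =>
    rw [map_smul, map_smul, map_smul, G, lin_X, map_smul, Lam_X, mul_smul_comm, mul_smul_comm,
      map_smul, map_smul, map_pow, expand_X, ← pow_mul, ← pow_add, Lam0_X, h, c]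
    push_cast
    simp only [smul_eq_mul]
    congr 3
    ring

theorem Lam_le (i : Fin 3) {P : ℝ[X]} {v : ℝ} (hu : ∀ x ∈ Set.Icc (0 : ℝ) 1, |P.eval x| ≤ v)
    (hv : ∀ x ∈ Set.Icc (0 : ℝ) 1, |(derivative P).eval x| ≤ v) : |Lam i P| ≤ v := by
  have key : ∀ j : ℕ, |Lam 0 (X ^ j * expand ℝ 4 (G P))| ≤ v := fun j => by
    obtain ⟨t, ht, e⟩ := Lam0_mvt (X ^ j * expand ℝ 4 (G P))
    have h1 := G_le hv (pow_pos ht.1 4) (pow_le_one₀ ht.1.le ht.2.le)
    have h2 : t ^ j ≤ 1 := pow_le_one₀ ht.1.le ht.2.le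
    have h3 : 0 < t ^ j := pow_pos ht.1 j
    rw [e, eval_mul, eval_pow, eval_X, expand_eval, abs_mul, abs_of_pos h3]
    nlinarith [abs_nonneg ((G P).eval (t ^ 4))]
  fin_cases i
  · obtain ⟨t, ht, e⟩ := Lam0_mvt P
    exact (congrArg abs e).trans_le (hu t ⟨ht.1.le, ht.2.le⟩)
  · exact (congrArg abs (Lam_G 1 0 (fun n => a_one n) P)).trans_le (key 0)
  · exact (congrArg abs (Lam_G 2 2 (fun n => a_two n) P)).trans_le (key 2)

/-- the shifted Chebyshev polynomials -/
noncomputable def S (m : ℕ) : ℝ[X] := (Chebyshev.T ℝ m).comp (C 2 * X - 1)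

theorem S_zero : S 0 = 1 := by simp [S]

theorem S_one : S 1 = C 2 * X - 1 := by simp [S]

theorem S_rec (m : ℕ) : S (m + 2) = C 4 * (X * S (m + 1)) - C 2 * S (m + 1) - S m := by
  have h4 : (C 4 : ℝ[X]) = 4 := rfl
  have h2 : (C 2 : ℝ[X]) = 2 := rfl
  simp only [S]
  push_cast
  rw [Chebyshev.T_add_two]
  simp only [sub_comp, mul_comp, X_comp, ofNat_comp, h4, h2]
  push_cast
  ring

theorem S_eval (m : ℕ) {x : ℝ} (hx : x ∈ Set.Icc (0 : ℝ) 1) : |(S m).eval x| ≤ 1 := by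
  rw [S, eval_comp]
  apply Chebyshev.abs_eval_T_real_le_one
  simp only [eval_sub, eval_mul, eval_C, eval_X, eval_one]
  exact abs_le.mpr ⟨by linarith [hx.1], by linarith [hx.2]⟩

theorem S_der (m : ℕ) {x : ℝ} (hx : x ∈ Set.Icc (0 : ℝ) 1) :
    |(derivative (S m)).eval x| ≤ 2 * (m : ℝ) ^ 2 := by
  have h := Chebyshev.abs_iterate_derivative_T_real_le (m : ℤ) 1 (x := 2 * x - 1)
    (abs_le.mpr ⟨by linarith [hx.1], by linarith [hx.2]⟩)
  rw [Function.iterate_one, Chebyshev.derivative_T_eval_one] at h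
  rw [S, derivative_comp]
  simp only [eval_mul, eval_comp, derivative_sub, derivative_mul, derivative_C, derivative_X,
    derivative_one, eval_sub, eval_C, eval_X, eval_one, zero_mul, zero_add, mul_one, sub_zero,
    abs_mul]
  push_cast at h
  rw [abs_two]
  linarith

theorem S_coeff_zero (m : ℕ) :
    (S (m + 2)).coeff 0 = -2 * (S (m + 1)).coeff 0 - (S m).coeff 0 := by
  rw [S_rec]; simp

theorem S_coeff_succ (m r : ℕ) : (S (m + 2)).coeff (r + 1) =
    4 * (S (m + 1)).coeff r - 2 * (S (m + 1)).coeff (r + 1) - (S m).coeff (r + 1) := by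
  rw [S_rec]; simp only [coeff_sub, coeff_C_mul, coeff_X_mul]

theorem S_high (m : ℕ) : ∀ r, m < r → (S m).coeff r = 0 := by
  induction m using Nat.twoStepInduction with
  | zero => intro r hr; rw [S_zero, coeff_one, if_neg hr.ne']
  | one =>
    intro r hr
    rw [S_one, coeff_sub, coeff_C_mul, coeff_X, coeff_one, if_neg hr.ne, if_neg (by omega)]
    simp
  | more m h1 h2 =>
    intro r hr
    obtain ⟨r, rfl⟩ : ∃ r', r = r' + 1 := ⟨r - 1, by omega⟩
    rw [S_coeff_succ, h2 r (by omega), h2 _ (by omega), h1 _ (by omega)]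
    simp

theorem S_top (m : ℕ) : (S (m + 1)).coeff (m + 1) = 4 ^ (m + 1) / 2 := by
  induction m with
  | zero => rw [S_one]; simp [coeff_one]; norm_num
  | succ m h =>
    rw [S_coeff_succ, h, S_high (m + 1) _ (by omega), S_high m _ (by omega)]
    ring

theorem S_lc (m : ℕ) : (4 : ℝ) ^ m / 2 ≤ (S m).coeff m := by
  rcases m with _ | m
  · rw [S_zero]; norm_num
  · exact (S_top m).ge

theorem S_coeff_le (m : ℕ) : ∀ r, |(S m).coeff r| ≤ 7 ^ m := by
  induction m using Nat.twoStepInduction with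
  | zero => intro r; rw [S_zero, coeff_one]; split_ifs <;> simp
  | one =>
    intro r
    rw [S_one, coeff_sub, coeff_C_mul, coeff_X, coeff_one]
    split_ifs <;> norm_num
  | more m h1 h2 =>
    intro r
    have h7 : (0 : ℝ) < 7 ^ m := by positivity
    rcases r with _ | r
    · have a1 := abs_le.mp (h1 0)
      have a2 := abs_le.mp (h2 0)
      rw [S_coeff_zero]
      rw [pow_succ] at a2
      rw [pow_succ, pow_succ]
      exact abs_le.mpr ⟨by linarith, by linarith⟩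
    · have a1 := abs_le.mp (h1 (r + 1))
      have a2 := abs_le.mp (h2 (r + 1))
      have a3 := abs_le.mp (h2 r)
      rw [S_coeff_succ]
      rw [pow_succ] at a2 a3
      rw [pow_succ, pow_succ]
      exact abs_le.mpr ⟨by linarith, by linarith⟩

theorem S_sum {m n : ℕ} (h : m < n) : S m = ∑ r ∈ range n, (S m).coeff r • X ^ r := by
  have h1 : (S m).natDegree < n :=
    lt_of_le_of_lt (natDegree_le_iff_coeff_eq_zero.mpr (S_high m)) h
  conv_lhs => rw [as_sum_range' _ n h1]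
  simp only [smul_X_eq_monomial]

theorem Lam_SS (i : Fin 3) {l m M : ℕ} (hl : l ≤ M) (hm : m ≤ M) (hM : 1 ≤ M) :
    |Lam i (S l * S m)| ≤ 4 * (M : ℝ) ^ 2 := by
  have b1 : (l : ℝ) ^ 2 ≤ (M : ℝ) ^ 2 := by gcongr
  have b2 : (m : ℝ) ^ 2 ≤ (M : ℝ) ^ 2 := by gcongr
  have b3 : (1 : ℝ) ≤ (M : ℝ) ^ 2 := one_le_pow₀ (by exact_mod_cast hM)
  refine Lam_le i (fun x hx => ?_) (fun x hx => ?_)
  · rw [eval_mul, abs_mul]
    have := mul_le_one₀ (S_eval l hx) (abs_nonneg _) (S_eval m hx)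
    linarith
  · rw [derivative_mul, eval_add, eval_mul, eval_mul]
    refine (abs_add_le _ _).trans ?_
    rw [abs_mul, abs_mul]
    have c1 := mul_le_mul (S_der l hx) (S_eval m hx) (abs_nonneg _) (by positivity)
    have c2 := mul_le_mul (S_eval l hx) (S_der m hx) (abs_nonneg _) (by positivity)
    linarith

theorem det_tri {D : ℕ} (W : Matrix (I D) (I D) ℝ) (h : ∀ r k, col k < col r → W r k = 0) :
    W.det = ∏ r, W r r := by
  rw [← Matrix.det_submatrix_equiv_self (e D).symm, Matrix.det_of_isUpperTriangular]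
  · exact Equiv.prod_comp (e D).symm fun r => W r r
  · intro i j hij
    apply h
    simpa [col] using hij

theorem det_rows {ι : Type} [Fintype ι] [DecidableEq ι] (B : Matrix ι ι ℝ) (u : ι → ℝ)
    (h : ∀ r k, |B r k| ≤ u r) : |B.det| ≤ (Fintype.card ι).factorial * ∏ r, u r := by
  rw [Matrix.det_apply']
  refine (abs_sum_le_sum_abs _ _).trans ?_
  refine (sum_le_card_nsmul _ _ (∏ r, u r) fun σ _ => ?_).trans ?_
  · rw [abs_mul, abs_prod, ← Equiv.prod_comp σ u]
    have h1 : |((Equiv.Perm.sign σ : ℤ) : ℝ)| = 1 := by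
      rcases Int.units_eq_one_or (Equiv.Perm.sign σ) with h1 | h1 <;> simp [h1]
    rw [h1, one_mul]
    exact prod_le_prod (fun _ _ => abs_nonneg _) fun k _ => h _ _
  · rw [card_univ, Fintype.card_perm, nsmul_eq_mul]

/-- change of basis on the columns -/
noncomputable def U (D : ℕ) : Matrix (I D) (I D) ℝ := fun k' k => (S (col k)).coeff (col k')

/-- change of basis on the rows -/
noncomputable def V (D : ℕ) : Matrix (I D) (I D) ℝ := fun r' r =>
  match r', r with
  | Sum.inl y, Sum.inl x => if y.1 = x.1 then (S x.2).coeff y.2 else 0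
  | Sum.inr t', Sum.inr t => if t' = t then 1 else 0
  | _, _ => 0

/-- the old rows as functionals -/
noncomputable def phi {D : ℕ} (s : Fin 20 → ℕ) : I D → ℝ[X] →ₗ[ℝ] ℝ
  | Sum.inl x => Lam x.1 ∘ₗ LinearMap.mulLeft ℝ (X ^ (x.2 : ℕ))
  | Sum.inr t => lcoeff ℝ (s t)

theorem phi_X {D : ℕ} (s : Fin 20 → ℕ) (r k : I D) :
    ((A D s r k : ℚ) : ℝ) = phi s r (X ^ col k) := by
  rcases r with x | t
  · simp only [phi, A_inl, LinearMap.comp_apply, LinearMap.mulLeft_apply]
    rw [← pow_add, Lam_X]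
  · simp only [phi, A_inr, lcoeff_apply, coeff_X_pow]
    by_cases h : col k = s t
    · simp [h]
    · simp [h, Ne.symm h]

theorem AU {D : ℕ} (s : Fin 20 → ℕ) (r k : I D) :
    (((A D s).map fun q : ℚ => (q : ℝ)) * U D) r k = phi s r (S (col k)) := by
  rw [Matrix.mul_apply]
  simp only [Matrix.map_apply, phi_X, U]
  rw [sum_col D fun m => phi s r (X ^ m) * (S (col k)).coeff m]
  conv_rhs => rw [S_sum (col_lt k), map_sum]
  exact sum_congr rfl fun m _ => by rw [map_smul, smul_eq_mul, mul_comm]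

theorem VAU_inl {D : ℕ} (s : Fin 20 → ℕ) (x : Fin 3 × Fin D) (P : ℝ[X]) :
    ∑ r', V D r' (Sum.inl x) * phi s r' P = Lam x.1 (S x.2 * P) := by
  rw [Fintype.sum_sum_type, Fintype.sum_prod_type]
  simp only [V, phi, zero_mul, sum_const_zero, add_zero, ite_mul, LinearMap.comp_apply,
    LinearMap.mulLeft_apply]
  rw [sum_comm]
  simp only [sum_ite_eq', mem_univ, if_true]
  rw [Fin.sum_univ_eq_sum_range (fun l => (S x.2).coeff l * Lam x.1 (X ^ l * P)) D]
  conv_rhs => rw [S_sum x.2.2, sum_mul, map_sum]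
  exact sum_congr rfl fun m _ => by rw [smul_mul_assoc, map_smul, smul_eq_mul]

theorem VAU_inr {D : ℕ} (s : Fin 20 → ℕ) (t : Fin 20) (P : ℝ[X]) :
    ∑ r', V D r' (Sum.inr t) * phi s r' P = P.coeff (s t) := by
  rw [Fintype.sum_sum_type]
  simp [V, phi]

theorem col_inl {D : ℕ} (x : Fin 3 × Fin D) : col (Sum.inl x : I D) = x.2 + D * x.1 := by
  simp [col, e, finProdFinEquiv]

theorem V_tri {D : ℕ} (r k : I D) (h : col k < col r) : V D r k = 0 := by
  rcases r with y | t' <;> rcases k with x | t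
  · simp only [V]
    split_ifs with h1
    · rw [col_inl, col_inl, h1] at h
      exact S_high _ _ (by omega)
    · rfl
  · rfl
  · rfl
  · simp only [V]
    split_ifs with h1
    · rw [h1] at h; exact absurd h (lt_irrefl _)
    · rfl

theorem prod_lc (n : ℕ) :
    Real.exp (Real.log 2 * ((n : ℝ) ^ 2 - 2 * n)) ≤ ∏ m ∈ range n, (S m).coeff m := by
  have h : ∏ m ∈ range n, ((4 : ℝ) ^ m / 2) = Real.exp (Real.log 2 * ((n : ℝ) ^ 2 - 2 * n)) := by
    induction n with
    | zero => simp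
    | succ n ih =>
      have h1 : (4 : ℝ) ^ n / 2 = Real.exp ((2 * n : ℕ) * Real.log 2 - Real.log 2) := by
        rw [Real.exp_sub, Real.exp_nat_mul, Real.exp_log two_pos, pow_mul]; norm_num
      rw [prod_range_succ, ih, h1, ← Real.exp_add]
      congr 1
      push_cast
      ring
  rw [← h]
  exact prod_le_prod (fun _ _ => by positivity) fun m _ => S_lc m

theorem det_U (D : ℕ) : Real.exp (Real.log 2 * (((3 * D + 20 : ℕ) : ℝ) ^ 2 -
    2 * (3 * D + 20 : ℕ))) ≤ (U D).det := by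
  rw [det_tri (U D) fun r k h => S_high _ _ h]
  simp only [U]
  rw [prod_col D fun m => (S m).coeff m]
  exact prod_lc _

theorem det_V (D : ℕ) : Real.exp (Real.log 2 * ((D : ℝ) ^ 2 - 2 * D)) ^ 3 ≤ (V D).det := by
  rw [det_tri _ V_tri, Fintype.prod_sum_type, Fintype.prod_prod_type]
  simp only [V, if_true, prod_const_one, mul_one, prod_const, card_univ, Fintype.card_fin]
  rw [Fin.prod_univ_eq_prod_range (fun l => (S l).coeff l) D]
  exact pow_le_pow_left₀ (Real.exp_pos _).le (prod_lc D) 3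

theorem nat_bound {D : ℕ} (hD : 2 ≤ D) :
    (3 * D + 20).factorial * ((4 * (3 * D + 20) ^ 2) ^ (3 * D) * (7 ^ (3 * D + 20)) ^ 20) ≤
      D ^ (881 * D) := by
  have h1 : 3 * D + 20 ≤ 13 * D := by omega
  have p4 : 2 ^ 4 ≤ D ^ 4 := Nat.pow_le_pow_left hD 4
  have p3 : 2 ^ 3 ≤ D ^ 3 := Nat.pow_le_pow_left hD 3
  have p2 : 2 ^ 2 ≤ D ^ 2 := Nat.pow_le_pow_left hD 2
  have h2 : 3 * D + 20 ≤ D ^ 5 := by
    have : 13 * D ≤ D ^ 4 * D := Nat.mul_le_mul_right _ (by omega)
    exact h1.trans (this.trans_eq (pow_succ D 4).symm)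
  have h0 : 0 < D := by omega
  have a1 : (3 * D + 20).factorial ≤ D ^ (65 * D) :=
    calc (3 * D + 20).factorial ≤ (3 * D + 20) ^ (3 * D + 20) := Nat.factorial_le_pow _
      _ ≤ (D ^ 5) ^ (3 * D + 20) := Nat.pow_le_pow_left h2 _
      _ ≤ (D ^ 5) ^ (13 * D) := Nat.pow_le_pow_right (by positivity) h1
      _ = D ^ (65 * D) := by rw [← pow_mul]; congr 1; ring
  have a2 : (4 * (3 * D + 20) ^ 2) ^ (3 * D) ≤ D ^ (36 * D) :=
    calc (4 * (3 * D + 20) ^ 2) ^ (3 * D) ≤ (D ^ 2 * (D ^ 5) ^ 2) ^ (3 * D) :=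
          Nat.pow_le_pow_left (Nat.mul_le_mul (by omega) (Nat.pow_le_pow_left h2 2)) _
      _ = D ^ (36 * D) := by rw [← pow_mul, ← pow_add, ← pow_mul]; congr 1; ring
  have a3 : (7 ^ (3 * D + 20)) ^ 20 ≤ D ^ (780 * D) :=
    calc (7 ^ (3 * D + 20)) ^ 20 ≤ ((D ^ 3) ^ (3 * D + 20)) ^ 20 :=
          Nat.pow_le_pow_left (Nat.pow_le_pow_left (by omega) _) _
      _ ≤ ((D ^ 3) ^ (13 * D)) ^ 20 :=
          Nat.pow_le_pow_left (Nat.pow_le_pow_right (by positivity) h1) _
      _ = D ^ (780 * D) := by rw [← pow_mul, ← pow_mul]; congr 1; ring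
  calc _ ≤ D ^ (65 * D) * (D ^ (36 * D) * D ^ (780 * D)) :=
        Nat.mul_le_mul a1 (Nat.mul_le_mul a2 a3)
    _ = D ^ (881 * D) := by rw [← pow_add, ← pow_add]; congr 1; ring

theorem det_B {D : ℕ} (hD : 2 ≤ D) (s : Fin 20 → ℕ) :
    |((V D).transpose * (((A D s).map fun q : ℚ => (q : ℝ)) * U D)).det| ≤
      (D : ℝ) ^ (881 * D) := by
  refine (det_rows _ (Sum.elim (fun _ => 4 * ((3 * D + 20 : ℕ) : ℝ) ^ 2)
    fun _ => 7 ^ (3 * D + 20)) fun r k => ?_).trans ?_
  · rw [Matrix.mul_apply]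
    simp only [Matrix.transpose_apply, AU]
    rcases r with x | t
    · rw [VAU_inl]
      exact Lam_SS _ (by have := x.2.2; omega) (col_lt k).le (by omega)
    · rw [VAU_inr]
      exact (S_coeff_le _ _).trans (pow_le_pow_right₀ (by norm_num) (col_lt k).le)
  · rw [card_I, Fintype.prod_sum_type]
    simp only [Sum.elim_inl, Sum.elim_inr, prod_const, card_univ, Fintype.card_prod,
      Fintype.card_fin]
    exact_mod_cast nat_bound hD

end Re

open Re in
/-- archimedean bound -/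
theorem real_bound : ∃ K : ℝ, ∀ D : ℕ, 2 ≤ D → ∀ s : Fin 20 → ℕ,
    |(((A D s).det : ℚ) : ℝ)| ≤
      Real.exp (K * D * Real.log D - 12 * Real.log 2 * (D : ℝ) ^ 2) := by
  refine ⟨881, fun D hD s => ?_⟩
  have h0 : (0 : ℝ) < D := by exact_mod_cast (by omega : 0 < D)
  have h1 := det_B hD s
  have h2 : (((A D s).det : ℚ) : ℝ) = ((A D s).map fun q : ℚ => (q : ℝ)).det :=
    (Rat.castHom ℝ).map_det (A D s)
  have h3 := det_U D
  have h4 := det_V D
  have h5 : (D : ℝ) ^ (881 * D) = Real.exp (881 * D * Real.log D) := by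
    rw [← Real.exp_log (pow_pos h0 _), Real.log_pow]; push_cast; rfl
  have h6 : Real.exp (12 * Real.log 2 * (D : ℝ) ^ 2) ≤ (V D).det * (U D).det := by
    refine le_trans ?_ (mul_le_mul h4 h3 (Real.exp_pos _).le (le_trans (by positivity) h4))
    rw [← Real.exp_nat_mul, ← Real.exp_add]
    apply Real.exp_le_exp.mpr
    have := Real.log_pos (show (1 : ℝ) < 2 by norm_num)
    push_cast
    nlinarith [mul_pos this h0]
  have h7 : 0 < (V D).det * (U D).det := (Real.exp_pos _).trans_le h6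
  rw [Matrix.det_mul, Matrix.det_mul, Matrix.det_transpose, ← h2, mul_left_comm, abs_mul,
    abs_of_pos h7, h5] at h1
  rw [Real.exp_sub, le_div_iff₀ (Real.exp_pos _)]
  exact (mul_le_mul_of_nonneg_left h6 (abs_nonneg _)).trans h1

end Pool.Agent.Lib.MP_6aa000_nt.NW
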