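import Mathlib

namespace Pool.Agent.Lib.MP_6aa000_nt.NW

open Finset

/-- the number 1/(4n+j) -/
def c (j n : ℕ) : ℚ := 1 / (4 * (n : ℚ) + j)

/-- the three sequences 1/(n+1), H_n/(4n+1), H_n/(4n+3) -/
def a (i : Fin 3) (n : ℕ) : ℚ :=
  if i = 0 then 1 / ((n : ℚ) + 1) else if i = 1 then harmonic n * c 1 n else harmonic n * c 3 n

/-- index type of the square matrix -/
abbrev I (D : ℕ) : Type := (Fin 3 × Fin D) ⊕ Fin 20

/-- numbering of the columns -/
def e (D : ℕ) : I D ≃ Fin (3 * D + 20) :=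
  (Equiv.sumCongr finProdFinEquiv (Equiv.refl _)).trans finSumFinEquiv

/-- number of a column -/
def col {D : ℕ} (k : I D) : ℕ := (e D k : ℕ)

/-- the matrix: 3D rows of shifted sequences and 20 unit rows -/
def A (D : ℕ) (s : Fin 20 → ℕ) : Matrix (I D) (I D) ℚ := fun r k =>
  match r with
  | Sum.inl x => a x.1 (x.2 + col k)
  | Sum.inr t => if col k = s t then 1 else 0

@[simp] theorem a_zero (n : ℕ) : a 0 n = 1 / ((n : ℚ) + 1) := by simp [a]
@[simp] theorem a_one (n : ℕ) : a 1 n = harmonic n * c 1 n := by simp [a]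
@[simp] theorem a_two (n : ℕ) : a 2 n = harmonic n * c 3 n := by
  have h0 : (2 : Fin 3) ≠ 0 := by decide
  have h1 : (2 : Fin 3) ≠ 1 := by decide
  simp [a, h0, h1]

@[simp] theorem A_inl (D : ℕ) (s : Fin 20 → ℕ) (x : Fin 3 × Fin D) (k : I D) :
    A D s (Sum.inl x) k = a x.1 (x.2 + col k) := rfl
@[simp] theorem A_inr (D : ℕ) (s : Fin 20 → ℕ) (t : Fin 20) (k : I D) :
    A D s (Sum.inr t) k = if col k = s t then 1 else 0 := rfl

theorem col_lt {D : ℕ} (k : I D) : col k < 3 * D + 20 := (e D k).2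

theorem col_inj {D : ℕ} : Function.Injective (col : I D → ℕ) :=
  fun _ _ h => (e D).injective (Fin.ext h)

theorem col_surj {D m : ℕ} (h : m < 3 * D + 20) : ∃ k : I D, col k = m :=
  ⟨(e D).symm ⟨m, h⟩, by simp [col]⟩

theorem sum_col {M : Type*} [AddCommMonoid M] (D : ℕ) (f : ℕ → M) :
    ∑ k : I D, f (col k) = ∑ m ∈ range (3 * D + 20), f m := by
  rw [← Fin.sum_univ_eq_sum_range]
  exact Equiv.sum_comp (e D) (fun m => f (m : ℕ))

theorem prod_col {M : Type*} [CommMonoid M] (D : ℕ) (f : ℕ → M) :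
    ∏ k : I D, f (col k) = ∏ m ∈ range (3 * D + 20), f m := by
  rw [← Fin.prod_univ_eq_prod_range]
  exact Equiv.prod_comp (e D) (fun m => f (m : ℕ))

theorem card_I (D : ℕ) : Fintype.card (I D) = 3 * D + 20 := by
  simp [I]

/-- the derivation (1 - z^4) z d/dz on power series -/
noncomputable def dd (f : PowerSeries ℚ) : PowerSeries ℚ :=
  (1 - PowerSeries.X ^ 4) * (PowerSeries.X * PowerSeries.derivative ℚ f)

/-- exponent bound at a large odd prime, first level -/
def e1 (D p : ℕ) : ℕ := ((range (3 * D + 20)).filter fun m => p ≤ m + D).card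

/-- exponent bound at a large Wieferich prime, second level -/
def e2 (D p : ℕ) : ℕ :=
  ((range (3 * D + 20)).filter fun m => D + 20 ≤ m ∧ 5 * p ≤ 4 * (m + D)).card

end Pool.Agent.Lib.MP_6aa000_nt.NW
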