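import Pool.Agent.Lib.MP_458f0b_nt.Pois.WIc
import Pool.Agent.Lib.MP_6aa000_nt.NW.Defs

namespace Pool.Agent.Lib.MP_6aa000_nt.NW

open Finset Filter Topology

theorem psi_lim : Tendsto (fun x : ℝ => Chebyshev.psi x / x) atTop (𝓝 1) := by
  have h := Pool.Agent.Lib.MP_458f0b_nt.Pois.psi_ap 1 0 (isUnit_of_subsingleton _)
  simp only [Nat.totient_one, Nat.cast_one, inv_one] at h
  refine h.congr fun x => ?_
  congr 1
  rw [Chebyshev.psi, ← Finset.Icc_add_one_left_eq_Ioc, zero_add]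
  refine sum_congr rfl fun n _ => ?_
  exact Set.indicator_of_mem (show n ∈ {n : ℕ | (n : ZMod 1) = 0} from Subsingleton.elim _ _) _

theorem theta_ev (η : ℝ) (hη : 0 < η) :
    ∃ X : ℝ, ∀ x, X ≤ x → Chebyshev.theta x ≤ (1 + η) * x := by
  have h := (psi_lim.eventually (gt_mem_nhds (show (1 : ℝ) < 1 + η by linarith))).and
    (eventually_gt_atTop 0)
  obtain ⟨X, hX⟩ := eventually_atTop.1 h
  refine ⟨X, fun x hx => (Chebyshev.theta_le_psi x).trans ?_⟩
  obtain ⟨h1, h2⟩ := hX x hx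
  exact ((div_lt_iff₀ h2).1 h1).le

theorem swap_le (N : ℕ) (S : Finset ℕ) (P : ℕ → ℕ → Prop) [∀ p, DecidablePred (P p)]
    (x : ℕ → ℝ) (hP : ∀ p m, P p m → (p : ℝ) ≤ x m) :
    ∑ p ∈ (range N).filter Nat.Prime, (((S.filter (P p)).card : ℕ) : ℝ) * Real.log p ≤
      ∑ m ∈ S, Chebyshev.theta (x m) := by
  have h1 : ∀ p : ℕ, (((S.filter (P p)).card : ℕ) : ℝ) * Real.log p
      = ∑ m ∈ S, if P p m then Real.log p else 0 := by
    intro p
    rw [← sum_filter, sum_const, nsmul_eq_mul]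
  simp only [h1]
  rw [sum_comm]
  refine sum_le_sum fun m _ => ?_
  rw [← sum_filter, Chebyshev.theta]
  refine sum_le_sum_of_subset_of_nonneg (fun p hp => ?_) fun p _ _ => Real.log_natCast_nonneg p
  simp only [mem_filter, mem_range, mem_Ioc] at hp ⊢
  exact ⟨⟨hp.1.2.pos, Nat.le_floor (hP p m hp.2)⟩, hp.1.2⟩

theorem sum_lin (n : ℕ) (t : ℝ) :
    ∑ m ∈ range n, ((m : ℝ) + t) = (n : ℝ) * ((n : ℝ) - 1) / 2 + t * n := by
  induction n with
  | zero => simp
  | succ n ih => rw [sum_range_succ, ih]; push_cast; ring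

/-- the prime number theorem gives the size of the denominators -/
theorem sum_bound (ε : ℝ) (hε : 0 < ε) : ∀ᶠ D : ℕ in atTop,
    ∑ p ∈ (range (16 * D + 81)).filter Nat.Prime, ((e1 D p + e2 D p : ℕ) : ℝ) * Real.log p ≤
      (123 / 10 + ε) * (D : ℝ) ^ 2 := by
  set η : ℝ := min (ε / 26) 1 with hη
  have hη0 : 0 < η := lt_min (by positivity) one_pos
  have hη1 : η ≤ 1 := min_le_right _ _
  have hη2 : η ≤ ε / 26 := min_le_left _ _
  obtain ⟨X, hX⟩ := theta_ev η hη0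
  have hT := tendsto_natCast_atTop_atTop (R := ℝ)
  filter_upwards [hT.eventually_ge_atTop X, hT.eventually_ge_atTop 1,
    hT.eventually_ge_atTop (1200 / ε)] with D hD hD1 hD2
  have h1 := swap_le (16 * D + 81) (range (3 * D + 20)) (fun p m => p ≤ m + D)
    (fun m => (m : ℝ) + D) (fun p m h => by exact_mod_cast h)
  have h2 := swap_le (16 * D + 81) (Ico (D + 20) (3 * D + 20)) (fun p m => 5 * p ≤ 4 * (m + D))
    (fun m => 4 / 5 * ((m : ℝ) + D)) (fun p m h => by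
      have : (5 : ℝ) * p ≤ 4 * ((m : ℝ) + D) := by exact_mod_cast h
      linarith)
  have h3 : ∀ p, e2 D p =
      ((Ico (D + 20) (3 * D + 20)).filter fun m => 5 * p ≤ 4 * (m + D)).card := by
    intro p
    unfold e2
    congr 1
    ext m
    simp only [mem_filter, mem_range, mem_Ico]
    tauto
  have h4 : ∑ m ∈ range (3 * D + 20), Chebyshev.theta ((m : ℝ) + D) ≤
      (1 + η) * (15 / 2 * (D : ℝ) ^ 2 + 157 / 2 * D + 190) := by
    refine (sum_le_sum fun m _ => hX _ (hD.trans (le_add_of_nonneg_left m.cast_nonneg))).trans ?_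
    rw [← mul_sum, sum_lin]
    push_cast
    exact le_of_eq (by ring)
  have h5 : ∑ m ∈ Ico (D + 20) (3 * D + 20), Chebyshev.theta (4 / 5 * ((m : ℝ) + D)) ≤
      (1 + η) * (24 / 5 * (D : ℝ) ^ 2 + 156 / 5 * D) := by
    refine (sum_le_sum fun m hm => hX _ ?_).trans ?_
    · have : ((D + 20 : ℕ) : ℝ) ≤ m := by exact_mod_cast (mem_Ico.1 hm).1
      push_cast at this
      linarith
    · rw [← mul_sum, ← mul_sum, sum_Ico_eq_sum_range,
        show 3 * D + 20 - (D + 20) = 2 * D by omega]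
      have : ∀ j ∈ range (2 * D), ((D + 20 + j : ℕ) : ℝ) + D = (j : ℝ) + (2 * D + 20) := by
        intro j _; push_cast; ring
      rw [sum_congr rfl this, sum_lin]
      push_cast
      exact le_of_eq (by ring)
  have h6 : 1200 ≤ ε * D := by rwa [div_le_iff₀' hε] at hD2
  have h7 : η * (D : ℝ) ^ 2 ≤ ε / 26 * (D : ℝ) ^ 2 := by gcongr
  have h8 : η * (D : ℝ) ≤ D := mul_le_of_le_one_left (by linarith) hη1
  have h9 : 1200 * (D : ℝ) ≤ ε * (D : ℝ) ^ 2 := by nlinarith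
  simp only [Nat.cast_add, add_mul (e1 D _ : ℝ), sum_add_distrib, h3]
  unfold e1
  nlinarith

end Pool.Agent.Lib.MP_6aa000_nt.NW
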