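import Pool.Agent.Lib.MP_6aa000_nt.NW.Odd

namespace Pool.Agent.Lib.MP_6aa000_nt.NW

open Finset Filter

/-- differences of order `k ≤ N` have 2-adic norm at most `b / 8 ^ k` -/
def TwoAn (N : ℕ) (b : ℚ) (f : ℕ → ℚ) : Prop :=
  ∀ k ≤ N, ∀ x, padicNorm 2 ((fwdDiff 1)^[k] f x) ≤ b * (1 / 8) ^ k

theorem two_add_le {x y t : ℚ} (hx : padicNorm 2 x ≤ t) (hy : padicNorm 2 y ≤ t) :
    padicNorm 2 (x + y) ≤ t := padicNorm.nonarchimedean.trans (max_le hx hy)

theorem TwoAn.mono {N N' : ℕ} {b : ℚ} {f : ℕ → ℚ} (h : TwoAn N b f) (hN : N' ≤ N) :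
    TwoAn N' b f := fun k hk => h k (hk.trans hN)

theorem TwoAn.iter {N i : ℕ} {b : ℚ} {f : ℕ → ℚ} (h : TwoAn (N + i) b f) :
    TwoAn N (b * (1 / 8) ^ i) ((fwdDiff 1)^[i] f) := fun k hk x => by
  rw [← Function.iterate_add_apply, mul_assoc, ← pow_add, add_comm i k]
  exact h _ (by omega) x

theorem TwoAn.shift {N : ℕ} {b : ℚ} {f : ℕ → ℚ} (h : TwoAn N b f) :
    TwoAn N b (fun x => f (x + 1)) := fun k hk x => by
  rw [fwdDiff_iter_comp_add]
  exact h k hk _

theorem two_mul_aux (k : ℕ) : ∀ {b b' : ℚ} {f g : ℕ → ℚ}, TwoAn k b f → TwoAn k b' g → ∀ x,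
    padicNorm 2 ((fwdDiff 1)^[k] (fun l => f l * g l) x) ≤ b * b' * (1 / 8) ^ k := by
  induction k with
  | zero =>
    intro b b' f g hf hg x
    have h1 := hf 0 le_rfl x
    have h2 := hg 0 le_rfl x
    simp only [Function.iterate_zero, id_eq, pow_zero, mul_one] at h1 h2 ⊢
    rw [padicNorm.mul]
    exact mul_le_mul h1 h2 (padicNorm.nonneg _) ((padicNorm.nonneg _).trans h1)
  | succ k ih =>
    intro b b' f g hf hg x
    have e : fwdDiff 1 (fun l => f l * g l) =
        (fun l => (fwdDiff 1)^[1] f l * g (l + 1)) + fun l => f l * (fwdDiff 1)^[1] g l := by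
      funext l
      simp only [fwdDiff, Function.iterate_one, Pi.add_apply]
      ring
    rw [Function.iterate_succ_apply, e, fwdDiff_iter_add, Pi.add_apply]
    refine two_add_le ?_ ?_
    · refine (ih hf.iter (hg.mono (Nat.le_succ k)).shift x).trans (le_of_eq ?_)
      ring
    · refine (ih (hf.mono (Nat.le_succ k)) hg.iter x).trans (le_of_eq ?_)
      ring

theorem two_c_diff (j : ℕ) (hj : 0 < j) (k : ℕ) : ∀ x, (fwdDiff 1)^[k] (c j) x =
    (-4) ^ k * (k.factorial : ℚ) * ∏ i ∈ range (k + 1), c j (x + i) := by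
  induction k with
  | zero => intro x; simp
  | succ k ih =>
    intro x
    rw [Function.iterate_succ_apply', fwdDiff, ih, ih, prod_range_succ (fun i => c j (x + 1 + i)),
      prod_range_succ (fun i => c j (x + i)) (k + 1), prod_range_succ' (fun i => c j (x + i))]
    have e : ∏ i ∈ range k, c j (x + 1 + i) = ∏ i ∈ range k, c j (x + (i + 1)) :=
      prod_congr rfl fun i _ => by rw [add_assoc, add_comm 1 i]
    have hj' : (0 : ℚ) < j := by exact_mod_cast hj
    have e2 : c j (x + 1 + k) - c j (x + 0) =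
        -4 * ((k : ℚ) + 1) * (c j (x + 0) * c j (x + (k + 1))) := by
      simp only [c]
      push_cast
      field_simp
      ring
    rw [e, Nat.factorial_succ]
    push_cast
    linear_combination ((-4) ^ k * (k.factorial : ℚ) * ∏ i ∈ range k, c j (x + (i + 1))) * e2

theorem two_c_norm {j : ℕ} (hj : j = 1 ∨ j = 3) (x : ℕ) : padicNorm 2 (c j x) ≤ 1 := by
  rw [c_eq]
  simpa using norm_inv_le 2 (4 * x + j) 0 (by omega)

theorem two_four : padicNorm 2 (4 : ℚ) = 1 / 4 := by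
  have h : padicNorm 2 ((2 : ℕ) : ℚ) = ((2 : ℕ) : ℚ)⁻¹ := padicNorm.padicNorm_p_of_prime
  have e : (4 : ℚ) = ((2 : ℕ) : ℚ) * ((2 : ℕ) : ℚ) := by norm_num
  rw [e, padicNorm.mul, h]
  norm_num

theorem two_fact (k : ℕ) :
    padicNorm 2 (k.factorial : ℚ) ≤ 2 * ((k : ℚ) + 1) * (1 / 2) ^ k := by
  have h1 := sub_one_mul_padicValNat_factorial (p := 2) k
  have h2 : (Nat.digits 2 k).sum ≤ (Nat.digits 2 k).length := by
    have := List.sum_le_card_nsmul (Nat.digits 2 k) 1 fun x hx => by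
      have := Nat.digits_lt_base (b := 2) (by norm_num) hx
      omega
    simpa using this
  have h3 : 2 ^ (Nat.digits 2 k).length ≤ 2 * (k + 1) := by
    rcases Nat.eq_zero_or_pos k with rfl | hk
    · simp
    · have := Nat.base_pow_length_digits_le 2 k (by norm_num) hk.ne'
      omega
  have h4 : 2 ^ k ≤ 2 * (k + 1) * 2 ^ padicValNat 2 k.factorial :=
    calc 2 ^ k ≤ 2 ^ ((Nat.digits 2 k).length + padicValNat 2 k.factorial) :=
          Nat.pow_le_pow_right two_pos (by omega)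
      _ ≤ _ := by rw [pow_add]; exact Nat.mul_le_mul_right _ h3
  have h5 : (2 : ℚ) ^ k ≤ 2 * ((k : ℚ) + 1) * 2 ^ padicValNat 2 k.factorial := by
    exact_mod_cast h4
  have h0 : (k.factorial : ℚ) ≠ 0 := by exact_mod_cast k.factorial_ne_zero
  rw [padicNorm.eq_zpow_of_nonzero h0, padicValRat.of_nat, zpow_neg, zpow_natCast, one_div, inv_pow,
    ← div_eq_mul_inv, ← one_div, div_le_div_iff₀ (by positivity) (by positivity), one_mul]
  exact_mod_cast h5

theorem two_c_bound {j : ℕ} (hj : j = 1 ∨ j = 3) (k x : ℕ) :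
    padicNorm 2 ((fwdDiff 1)^[k] (c j) x) ≤ 2 * ((k : ℚ) + 1) * (1 / 8) ^ k := by
  rw [two_c_diff j (by omega), padicNorm.mul, padicNorm.mul, norm_pow, padicNorm.neg, two_four,
    norm_prod]
  have h1 : ∏ i ∈ range (k + 1), padicNorm 2 (c j (x + i)) ≤ 1 :=
    prod_le_one (fun i _ => padicNorm.nonneg _) fun i _ => two_c_norm hj _
  calc _ ≤ (1 / 4) ^ k * (2 * ((k : ℚ) + 1) * (1 / 2) ^ k) * 1 :=
        mul_le_mul (mul_le_mul_of_nonneg_left (two_fact k) (by positivity)) h1
          (prod_nonneg fun i _ => padicNorm.nonneg _) (by positivity)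
    _ = _ := by
      rw [show (1 / 8 : ℚ) = 1 / 4 * (1 / 2) by norm_num, mul_pow]
      ring

theorem two_an_c {j : ℕ} (hj : j = 1 ∨ j = 3) (N : ℕ) : TwoAn N (2 * ((N : ℚ) + 1)) (c j) := by
  intro k hk x
  have : (k : ℚ) ≤ N := by exact_mod_cast hk
  exact (two_c_bound hj k x).trans (mul_le_mul_of_nonneg_right (by linarith) (by positivity))

/-- initial sums of `4 c` -/
def twoS (j l : ℕ) : ℚ := ∑ r ∈ range l, 4 * c j r

theorem two_an_s {j : ℕ} (hj : j = 1 ∨ j = 3) (N : ℕ) :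
    TwoAn N (4 * ((N : ℚ) + 1)) (twoS j) := by
  intro k hk x
  have hN : (0 : ℚ) ≤ N := Nat.cast_nonneg _
  rcases k with _ | k
  · simp only [Function.iterate_zero, id_eq, pow_zero, mul_one, twoS]
    refine padicNorm.sum_le' (fun r _ => ?_) (by positivity)
    rw [padicNorm.mul, two_four]
    have := two_c_norm hj r
    linarith
  · have e : fwdDiff 1 (twoS j) = (4 : ℚ) • c j := by
      funext l
      simp [fwdDiff, twoS, sum_range_succ]
    have hk' : (k : ℚ) + 1 ≤ N := by exact_mod_cast hk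
    rw [Function.iterate_succ_apply, e, fwdDiff_iter_const_smul, Pi.smul_apply, smul_eq_mul,
      padicNorm.mul, two_four, pow_succ]
    have h1 := two_c_bound hj k x
    have h2 : (0 : ℚ) ≤ (1 / 8) ^ k := by positivity
    nlinarith

theorem two_newton (f : ℕ → ℚ) (x : ℕ) {n N : ℕ} (h : n < N) :
    f (x + n) = ∑ k ∈ range N, (n.choose k : ℚ) * (fwdDiff 1)^[k] f x := by
  have h1 := shift_eq_sum_fwdDiff_iter 1 f n x
  simp only [smul_eq_mul, mul_one, nsmul_eq_mul] at h1
  rw [h1]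
  refine sum_subset (range_subset_range.2 h) fun k _ hk => ?_
  rw [Nat.choose_eq_zero_of_lt (by simpa using hk), Nat.cast_zero, zero_mul]

theorem two_split (j : ℕ) (hj : 0 < j) (l m : ℕ) : harmonic (l + m) * c j (l + m) =
    (harmonic m - twoS j l) * c j (l + m) + ∑ i ∈ range l, c j (l - 1 - i) * a 0 (i + m) := by
  have h1 : ∀ l, harmonic (l + m) = harmonic m + ∑ i ∈ range l, a 0 (i + m) := by
    intro l
    induction l with
    | zero => simp
    | succ l ih =>
      rw [add_right_comm, harmonic_succ, ih, sum_range_succ, a_zero, add_assoc, one_div]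
      push_cast
      rfl
  have hj' : (0 : ℚ) < j := by exact_mod_cast hj
  have h2 : ∀ i ∈ range l, a 0 (i + m) * c j (l + m) =
      c j (l - 1 - i) * a 0 (i + m) - 4 * c j (l - 1 - i) * c j (l + m) := by
    intro i hi
    obtain ⟨t, rfl⟩ : ∃ t, l = i + 1 + t := ⟨l - 1 - i, by have := mem_range.1 hi; omega⟩
    rw [show i + 1 + t - 1 - i = t by omega]
    simp only [c, a_zero]
    push_cast
    field_simp
    ring
  rw [h1, add_mul, sum_mul, sum_congr rfl h2, sum_sub_distrib, ← sum_mul,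
    sum_range_reflect (fun r => 4 * c j r) l, twoS]
  ring

theorem two_det_mul {ι κ : Type*} [Fintype ι] [DecidableEq ι] [Fintype κ] (X : Matrix ι κ ℚ)
    (Y : Matrix κ ι ℚ) :
    (X * Y).det = ∑ f : ι → κ, (∏ r, X r (f r)) * (Y.submatrix f id).det := by
  classical
  rw [← Matrix.det_transpose, Matrix.det_apply']
  simp only [Matrix.transpose_apply, Matrix.mul_apply, prod_univ_sum, Fintype.piFinset_univ,
    mul_sum]
  rw [sum_comm]
  refine sum_congr rfl fun f _ => ?_
  rw [← Matrix.det_transpose, Matrix.det_apply', mul_sum]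
  refine sum_congr rfl fun σ _ => ?_
  simp only [Matrix.transpose_apply, Matrix.submatrix_apply, id_eq, prod_mul_distrib]
  ring

theorem two_det_le {ι κ : Type*} [Fintype ι] [DecidableEq ι] [Fintype κ] (X : Matrix ι κ ℚ)
    (Y : Matrix κ ι ℚ) (u : ι → ℚ) (w : κ → ℚ) {y W : ℚ} (hu : ∀ r, 0 ≤ u r) (hy : 0 ≤ y)
    (hW0 : 0 ≤ W) (hX : ∀ r t, padicNorm 2 (X r t) ≤ u r * w t)
    (hY : ∀ t k, padicNorm 2 (Y t k) ≤ y)
    (hW : ∀ f : ι → κ, Function.Injective f → (∀ r, X r (f r) ≠ 0) → ∏ r, w (f r) ≤ W) :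
    padicNorm 2 (X * Y).det ≤ (∏ r, u r) * W * y ^ Fintype.card ι := by
  have hP : 0 ≤ ∏ r, u r := prod_nonneg fun r _ => hu r
  have h0 : 0 ≤ (∏ r, u r) * W * y ^ Fintype.card ι := by positivity
  rw [two_det_mul]
  refine padicNorm.sum_le' (fun f _ => ?_) h0
  by_cases hf : Function.Injective f
  · by_cases hx : ∀ r, X r (f r) ≠ 0
    · rw [padicNorm.mul, norm_prod]
      have h1 : ∏ r, padicNorm 2 (X r (f r)) ≤ (∏ r, u r) * W :=
        calc _ ≤ ∏ r, u r * w (f r) :=
              prod_le_prod (fun r _ => padicNorm.nonneg _) fun r _ => hX _ _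
          _ ≤ _ := by
              rw [prod_mul_distrib]
              exact mul_le_mul_of_nonneg_left (hW f hf hx) hP
      have h2 := norm_det_le 2 (Y.submatrix f id) (fun _ => y) (fun _ => 1) fun r k => by
        simpa using hY _ _
      simp only [prod_const, card_univ, one_pow, mul_one] at h2
      exact mul_le_mul h1 h2 (padicNorm.nonneg _) (by positivity)
    · push Not at hx
      obtain ⟨r, hr⟩ := hx
      rw [prod_eq_zero (mem_univ r) hr, zero_mul, padicNorm.zero]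
      exact h0
  · rw [Function.not_injective_iff] at hf
    obtain ⟨r, r', e, hne⟩ := hf
    rw [Matrix.det_zero_of_row_eq hne (by funext k; simp [e]), mul_zero, padicNorm.zero]
    exact h0

theorem two_card_sq (S : Finset ℕ) : S.card ^ 2 ≤ 2 * ∑ x ∈ S, x + S.card := by
  induction S using Finset.induction_on_max with
  | empty => simp
  | insert b S hb ih =>
    have hn : b ∉ S := fun h => lt_irrefl _ (hb b h)
    have hc : S.card ≤ b := by
      simpa using card_le_card (t := range b) fun x hx => mem_range.2 (hb x hx)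
    rw [card_insert_of_notMem hn, sum_insert hn]
    nlinarith

/-- the residue attached to a block of rows -/
def twoJ (i : Fin 3) : ℕ := if i = 1 then 1 else 3

theorem twoJ_cases (i : Fin 3) : twoJ i = 1 ∨ twoJ i = 3 := by
  unfold twoJ; split_ifs <;> simp

theorem two_a_eq {i : Fin 3} (hi : i ≠ 0) (n : ℕ) : a i n = harmonic n * c (twoJ i) n := by
  fin_cases i
  · exact absurd rfl hi
  · exact a_one n
  · exact a_two n

/-- the matrix after the row operations -/
def twoA (D : ℕ) (s : Fin 20 → ℕ) : Matrix (I D) (I D) ℚ := fun r k =>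
  match r with
  | Sum.inl x => if x.1 = 0 then a 0 (x.2 + col k) else (fwdDiff 1)^[x.2]
      (fun l => (harmonic (col k) - twoS (twoJ x.1) l) * c (twoJ x.1) (l + col k)) 0
  | Sum.inr t => A D s (Sum.inr t) k

/-- the row operations -/
def twoU (D : ℕ) : Matrix (I D) (I D) ℚ := fun r r' =>
  match r, r' with
  | Sum.inl x, Sum.inl y =>
      if x.1 = 0 then (if x = y then 1 else 0)
      else if y.1 = 0 then (if (y.2 : ℕ) < x.2 then c (twoJ x.1) (x.2 - 1 - y.2) else 0)
      else if y.1 = x.1 then ((x.2 : ℕ).choose y.2 : ℚ) else 0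
  | Sum.inl _, Sum.inr _ => 0
  | Sum.inr _, Sum.inl _ => 0
  | Sum.inr t, Sum.inr t' => if t = t' then 1 else 0

theorem twoU_norm (D : ℕ) (r r' : I D) : padicNorm 2 (twoU D r r') ≤ 1 := by
  rcases r with x | t <;> rcases r' with y | t' <;> simp only [twoU]
  · split_ifs
    · simp
    · simp
    · exact two_c_norm (twoJ_cases _) _
    · simp
    · exact padicNorm.of_nat _
    · simp
  · simp
  · simp
  · split_ifs <;> simp

theorem two_row {D : ℕ} {i : Fin 3} (hi : i ≠ 0) (l : Fin D) (m : ℕ) : a i (l + m) =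
    ∑ y : Fin D, (if (y : ℕ) < l then c (twoJ i) (l - 1 - y) else 0) * a 0 (y + m) +
    ∑ y : Fin D, ((l : ℕ).choose y : ℚ) * (fwdDiff 1)^[y]
      (fun l => (harmonic m - twoS (twoJ i) l) * c (twoJ i) (l + m)) 0 := by
  have h1 := two_newton (fun l => (harmonic m - twoS (twoJ i) l) * c (twoJ i) (l + m)) 0 l.2
  simp only [zero_add] at h1
  rw [two_a_eq hi, two_split _ (by have := twoJ_cases i; omega), h1, add_comm,
    Fin.sum_univ_eq_sum_range (fun y => (if y < l then c (twoJ i) (l - 1 - y) else 0) *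
      a 0 (y + m)) D, Fin.sum_univ_eq_sum_range (fun y => ((l : ℕ).choose y : ℚ) * (fwdDiff 1)^[y]
      (fun l => (harmonic m - twoS (twoJ i) l) * c (twoJ i) (l + m)) 0) D]
  congr 1
  rw [← sum_subset (range_subset_range.2 l.2.le)]
  · exact sum_congr rfl fun y hy => by rw [if_pos (mem_range.1 hy)]
  · intro y _ hy
    rw [if_neg (by simpa using hy), zero_mul]

theorem two_fac1 (D : ℕ) (s : Fin 20 → ℕ) : A D s = twoU D * twoA D s := by
  ext r k
  rw [Matrix.mul_apply, Fintype.sum_sum_type]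
  rcases r with ⟨i, l⟩ | t
  · by_cases hi : i = 0
    · subst hi
      simp only [twoU, if_true, ite_mul, one_mul, zero_mul, sum_ite_eq, mem_univ, sum_const_zero,
        add_zero, twoA, A_inl]
    · rw [A_inl, two_row hi, Fintype.sum_prod_type, Fin.sum_univ_three]
      have h1 : (1 : Fin 3) ≠ 0 := by decide
      have h2 : (2 : Fin 3) ≠ 0 := by decide
      have h3 : (1 : Fin 3) ≠ 2 := by decide
      have h4 : i = 1 ∨ i = 2 := by revert i; decide
      rcases h4 with rfl | rfl <;>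
        simp only [twoU, twoA, if_neg h1, if_neg h2, if_neg h3, if_neg h3.symm, if_true, zero_mul,
          sum_const_zero, add_zero]
  · simp only [twoU, zero_mul, sum_const_zero, zero_add, ite_mul, one_mul, sum_ite_eq, mem_univ,
      if_true, twoA]

/-- Newton coefficients -/
def twoX (D : ℕ) : Matrix (I D) ((Fin 2 × Fin (3 * D + 20)) ⊕ I D) ℚ := fun r t =>
  match r, t with
  | Sum.inl x, Sum.inl z =>
      if x.1 = 0 then 0
      else if z.1 = 0 then (fwdDiff 1)^[x.2] ((fwdDiff 1)^[z.2] (c (twoJ x.1))) 0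
      else -(fwdDiff 1)^[x.2]
        (fun l => twoS (twoJ x.1) l * (fwdDiff 1)^[z.2] (c (twoJ x.1)) l) 0
  | Sum.inl x, Sum.inr r' => if x.1 = 0 then (if Sum.inl x = r' then 1 else 0) else 0
  | Sum.inr _, Sum.inl _ => 0
  | Sum.inr t, Sum.inr r' => if Sum.inr t = r' then 1 else 0

/-- Newton basis -/
def twoY (D : ℕ) (s : Fin 20 → ℕ) : Matrix ((Fin 2 × Fin (3 * D + 20)) ⊕ I D) (I D) ℚ :=
  fun t k =>
  match t with
  | Sum.inl z => (if z.1 = 0 then harmonic (col k) else 1) * ((col k).choose z.2 : ℚ)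
  | Sum.inr r => A D s r k

theorem two_row2 (j k' : ℕ) {m M : ℕ} (hm : m < M) (H : ℚ) :
    (fwdDiff 1)^[k'] (fun l => (H - twoS j l) * c j (l + m)) 0 =
      ∑ k : Fin M, (fwdDiff 1)^[k'] ((fwdDiff 1)^[k] (c j)) 0 * (H * (m.choose k : ℚ)) +
      ∑ k : Fin M, -(fwdDiff 1)^[k'] (fun l => twoS j l * (fwdDiff 1)^[k] (c j) l) 0 *
        (1 * (m.choose k : ℚ)) := by
  have e : (fun l => (H - twoS j l) * c j (l + m)) =
      ∑ k : Fin M, ((H * (m.choose k : ℚ)) • (fwdDiff 1)^[k] (c j) +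
        (-(m.choose k : ℚ)) • fun l => twoS j l * (fwdDiff 1)^[k] (c j) l) := by
    funext l
    rw [two_newton (c j) l hm, ← Fin.sum_univ_eq_sum_range
      (fun k => (m.choose k : ℚ) * (fwdDiff 1)^[k] (c j) l) M, mul_sum, Finset.sum_apply]
    refine sum_congr rfl fun k _ => ?_
    simp only [Pi.add_apply, Pi.smul_apply, smul_eq_mul]
    ring
  rw [e, fwdDiff_iter_finsetSum, Finset.sum_apply, ← sum_add_distrib]
  refine sum_congr rfl fun k _ => ?_
  rw [fwdDiff_iter_add, fwdDiff_iter_const_smul, fwdDiff_iter_const_smul]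
  simp only [Pi.add_apply, Pi.smul_apply, smul_eq_mul]
  ring

theorem two_fac2 (D : ℕ) (s : Fin 20 → ℕ) : twoA D s = twoX D * twoY D s := by
  ext r k
  rw [Matrix.mul_apply, Fintype.sum_sum_type]
  rcases r with ⟨i, l⟩ | t
  · by_cases hi : i = 0
    · subst hi
      simp only [twoX, twoY, twoA, if_true, ite_mul, one_mul, zero_mul, sum_ite_eq, mem_univ,
        sum_const_zero, zero_add, A_inl]
    · have h1 : (1 : Fin 2) ≠ 0 := by decide
      rw [Fintype.sum_prod_type, Fin.sum_univ_two]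
      simp only [twoX, twoY, twoA, if_neg hi, if_neg h1, if_true, zero_mul, sum_const_zero,
        add_zero]
      exact two_row2 _ _ (col_lt k) _
  · simp only [twoX, twoY, twoA, zero_mul, sum_const_zero, zero_add, ite_mul, one_mul, sum_ite_eq,
      mem_univ, if_true]

theorem twoY_norm (D : ℕ) (s : Fin 20 → ℕ) (t : (Fin 2 × Fin (3 * D + 20)) ⊕ I D) (k : I D) :
    padicNorm 2 (twoY D s t k) ≤ 4 * (D : ℚ) + 21 := by
  have hk := col_lt k
  have hc : ∀ m : ℕ, m ≤ 4 * D + 21 → (m : ℚ) ≤ 4 * (D : ℚ) + 21 := fun m hm => by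
    exact_mod_cast hm
  have h1 : (1 : ℚ) ≤ 4 * (D : ℚ) + 21 := by simpa using hc 1 (by omega)
  rcases t with z | (x | t) <;> simp only [twoY]
  · rw [padicNorm.mul, ← mul_one (4 * (D : ℚ) + 21)]
    refine mul_le_mul ?_ (padicNorm.of_nat _) (padicNorm.nonneg _) (by linarith)
    split_ifs
    · exact (norm_harm_self 2 _).trans (hc _ (by omega))
    · simpa using h1
  · have := x.2.2
    rw [A_inl]
    by_cases hi : x.1 = 0
    · rw [hi, a0_eq]
      exact (norm_inv_self 2 _ (by omega)).trans (hc _ (by omega))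
    · rw [two_a_eq hi, padicNorm.mul, ← mul_one (4 * (D : ℚ) + 21)]
      exact mul_le_mul ((norm_harm_self 2 _).trans (hc _ (by omega)))
        (two_c_norm (twoJ_cases _) _) (padicNorm.nonneg _) (by linarith)
  · exact (norm_unit 2 D s t k).trans h1

/-- weight of a column of the Newton coefficients -/
def twoW {D : ℕ} : (Fin 2 × Fin (3 * D + 20)) ⊕ I D → ℕ := Sum.elim (fun z => z.2) fun _ => 0

/-- weight of a row -/
def twoV (D : ℕ) : I D → ℚ :=
  Sum.elim (fun x => if x.1 = 0 then 1 else 8 * (4 * (D : ℚ) + 21) ^ 2 * (1 / 8) ^ (x.2 : ℕ))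
    fun _ => 1

theorem twoX_norm (D : ℕ) (r : I D) (t : (Fin 2 × Fin (3 * D + 20)) ⊕ I D) :
    padicNorm 2 (twoX D r t) ≤ twoV D r * (1 / 8) ^ twoW t := by
  rcases r with x | t' <;> rcases t with z | r' <;>
    simp only [twoX, twoV, twoW, Sum.elim_inl, Sum.elim_inr, pow_zero, mul_one]
  · have hx := x.2.2
    have hz := z.2.2
    have hD : (0 : ℚ) ≤ D := Nat.cast_nonneg _
    have hc : TwoAn x.2 (2 * (4 * (D : ℚ) + 21) * (1 / 8) ^ (z.2 : ℕ))
        ((fwdDiff 1)^[z.2] (c (twoJ x.1))) := by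
      have := ((two_an_c (twoJ_cases x.1) (4 * D + 20)).mono
        (show (x.2 : ℕ) + z.2 ≤ 4 * D + 20 by omega)).iter
      push_cast at this
      rwa [add_assoc, show (20 : ℚ) + 1 = 21 by norm_num] at this
    have hs : TwoAn x.2 (4 * (4 * (D : ℚ) + 21)) (twoS (twoJ x.1)) := by
      have := (two_an_s (twoJ_cases x.1) (4 * D + 20)).mono
        (show (x.2 : ℕ) ≤ 4 * D + 20 by omega)
      push_cast at this
      rwa [add_assoc, show (20 : ℚ) + 1 = 21 by norm_num] at this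
    split_ifs
    · simp
    · refine (hc _ le_rfl 0).trans ?_
      have h1 : 2 * (4 * (D : ℚ) + 21) ≤ 8 * (4 * (D : ℚ) + 21) ^ 2 := by nlinarith
      have h2 : (0 : ℚ) ≤ (1 / 8) ^ (z.2 : ℕ) * (1 / 8) ^ (x.2 : ℕ) := by positivity
      have := mul_le_mul_of_nonneg_right h1 h2
      linarith
    · rw [padicNorm.neg]
      refine (two_mul_aux _ hs hc 0).trans (le_of_eq ?_)
      ring
  · split_ifs
    · simp
    · simp
    · rw [padicNorm.zero]; positivity
  · simp
  · split_ifs <;> simp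

theorem two_weight (D : ℕ) (f : I D → (Fin 2 × Fin (3 * D + 20)) ⊕ I D)
    (hf : Function.Injective f) (hx : ∀ r, twoX D r (f r) ≠ 0) :
    D ^ 2 ≤ ∑ r, twoW (f r) + 2 * D := by
  classical
  have h1 : ∀ z : Fin 2 × Fin D, ∃ q, f (Sum.inl (z.1.succ, z.2)) = Sum.inl q := by
    intro z
    have := hx (Sum.inl (z.1.succ, z.2))
    rcases h : f (Sum.inl (z.1.succ, z.2)) with q | r'
    · exact ⟨q, rfl⟩
    · rw [h] at this
      simp only [twoX, if_neg (Fin.succ_ne_zero z.1)] at this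
      exact absurd rfl this
  choose q hq using h1
  let g : Fin 2 × Fin D → ℕ := fun z => 2 * (q z).2 + (q z).1
  have hg : Function.Injective g := by
    intro z z' e
    have a1 := (q z).1.2
    have a2 := (q z').1.2
    have e' : q z = q z' := Prod.ext (Fin.ext (by simp only [g] at e; omega))
      (Fin.ext (by simp only [g] at e; omega))
    have e2 := hf ((hq z).trans ((congrArg Sum.inl e').trans (hq z').symm))
    simp only [Sum.inl.injEq, Prod.mk.injEq, Fin.succ_inj] at e2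
    exact Prod.ext e2.1 e2.2
  have h2 := two_card_sq (univ.image g)
  rw [card_image_of_injective _ hg, sum_image fun z _ z' _ e => hg e] at h2
  simp only [card_univ, Fintype.card_prod, Fintype.card_fin] at h2
  have h3 : ∑ z, g z ≤ ∑ z : Fin 2 × Fin D, (2 * twoW (f (Sum.inl (z.1.succ, z.2))) + 1) := by
    refine sum_le_sum fun z _ => ?_
    have a1 := (q z).1.2
    rw [hq z]
    simp only [g, twoW, Sum.elim_inl]
    omega
  have h5 : ∑ z : Fin 2 × Fin D, (2 * twoW (f (Sum.inl (z.1.succ, z.2))) + 1) =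
      2 * ∑ z : Fin 2 × Fin D, twoW (f (Sum.inl (z.1.succ, z.2))) + 2 * D := by
    rw [sum_add_distrib, ← mul_sum]
    simp only [sum_const, card_univ, Fintype.card_prod, Fintype.card_fin, smul_eq_mul, mul_one]
  rw [h5] at h3
  have h4 : ∑ z : Fin 2 × Fin D, twoW (f (Sum.inl (z.1.succ, z.2))) ≤ ∑ r, twoW (f r) := by
    rw [Fintype.sum_sum_type, Fintype.sum_prod_type (f := fun x : Fin 3 × Fin D =>
      twoW (f (Sum.inl x))), Fin.sum_univ_succ, Fintype.sum_prod_type]
    exact (Nat.le_add_left _ _).trans (Nat.le_add_right _ _)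
  nlinarith

theorem twoV_prod (D : ℕ) : (∏ r, twoV D r) * 8 ^ (D ^ 2) =
    (8 * (4 * (D : ℚ) + 21) ^ 2) ^ (2 * D) * 8 ^ D := by
  have h1 : (1 : Fin 3) ≠ 0 := by decide
  have h2 : (2 : Fin 3) ≠ 0 := by decide
  have h3 : D ^ 2 = (∑ i ∈ range D, i) * 2 + D := by
    rw [sum_range_id_mul_two]
    rcases D with _ | D
    · simp
    · simp only [Nat.add_sub_cancel]; ring
  rw [Fintype.prod_sum_type, Fintype.prod_prod_type, Fin.prod_univ_three]
  simp only [twoV, Sum.elim_inl, Sum.elim_inr, if_true, if_neg h1, if_neg h2, prod_const_one,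
    one_mul, mul_one]
  generalize 8 * (4 * (D : ℚ) + 21) ^ 2 = B
  simp only [prod_mul_distrib, prod_const, card_univ, Fintype.card_fin]
  rw [prod_pow_eq_pow_sum, Fin.sum_univ_eq_sum_range (fun i => i) D, h3]
  generalize ∑ i ∈ range D, i = T
  have h4 : (1 / 8 : ℚ) ^ T * 8 ^ T = 1 := by rw [← mul_pow]; norm_num
  calc _ = B ^ (2 * D) * 8 ^ D * ((1 / 8 : ℚ) ^ T * 8 ^ T) ^ 2 := by ring
    _ = _ := by rw [h4]; ring

theorem two_rat (D : ℕ) (hD : 2 ≤ D) (s : Fin 20 → ℕ) :
    padicNorm 2 (A D s).det * 2 ^ (6 * D ^ 2) ≤ (D : ℚ) ^ (100 * D) := by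
  have hD' : (2 : ℚ) ≤ D := by exact_mod_cast hD
  have hU : padicNorm 2 (twoU D).det ≤ 1 := by
    simpa using norm_det_le 2 (twoU D) (fun _ => 1) (fun _ => 1) fun r k => by
      simpa using twoU_norm D r k
  have hV : ∀ r, 0 ≤ twoV D r := by
    rintro (x | t) <;> simp only [twoV, Sum.elim_inl, Sum.elim_inr]
    · split_ifs <;> positivity
    · exact zero_le_one
  have hXY := two_det_le (twoX D) (twoY D s) (twoV D) (fun t => (1 / 8) ^ twoW t)
    (y := 4 * (D : ℚ) + 21) (W := 8 ^ (2 * D) / 8 ^ (D ^ 2)) hV (by positivity) (by positivity)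
    (twoX_norm D) (twoY_norm D s) fun f hf hx => by
      rw [prod_pow_eq_pow_sum, one_div, inv_pow, ← one_div,
        div_le_div_iff₀ (by positivity) (by positivity), one_mul, ← pow_add]
      exact pow_le_pow_right₀ (by norm_num) (by have := two_weight D f hf hx; omega)
  rw [card_I] at hXY
  have h1 : padicNorm 2 (A D s).det ≤ padicNorm 2 (twoX D * twoY D s).det := by
    rw [two_fac1, two_fac2, Matrix.det_mul, padicNorm.mul]
    exact mul_le_of_le_one_left (padicNorm.nonneg _) hU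
  have h8 : (8 : ℚ) ≤ (D : ℚ) ^ 3 := by
    have := pow_le_pow_left₀ (by norm_num) hD' 3
    linarith
  have hy : 4 * (D : ℚ) + 21 ≤ (D : ℚ) ^ 5 := by
    have h := pow_le_pow_left₀ (by norm_num) hD' 4
    have := mul_le_mul_of_nonneg_right h (show (0 : ℚ) ≤ D by linarith)
    have e : (D : ℚ) ^ 5 = (D : ℚ) ^ 4 * D := by ring
    linarith
  calc padicNorm 2 (A D s).det * 2 ^ (6 * D ^ 2)
      ≤ (∏ r, twoV D r) * (8 ^ (2 * D) / 8 ^ (D ^ 2)) * (4 * (D : ℚ) + 21) ^ (3 * D + 20) *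
          2 ^ (6 * D ^ 2) := mul_le_mul_of_nonneg_right (h1.trans hXY) (by positivity)
    _ = ((∏ r, twoV D r) * 8 ^ (D ^ 2)) * 8 ^ (2 * D) * (4 * (D : ℚ) + 21) ^ (3 * D + 20) := by
        rw [show (2 : ℚ) ^ (6 * D ^ 2) = 8 ^ (D ^ 2) * 8 ^ (D ^ 2) by
          rw [← mul_pow, pow_mul]; norm_num]
        field_simp
    _ = (8 * (4 * (D : ℚ) + 21) ^ 2) ^ (2 * D) * 8 ^ D * 8 ^ (2 * D) *
          (4 * (D : ℚ) + 21) ^ (3 * D + 20) := by rw [twoV_prod]
    _ ≤ ((D : ℚ) ^ 3 * ((D : ℚ) ^ 5) ^ 2) ^ (2 * D) * ((D : ℚ) ^ 3) ^ D * ((D : ℚ) ^ 3) ^ (2 * D) *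
          ((D : ℚ) ^ 5) ^ (3 * D + 20) := by gcongr
    _ = (D : ℚ) ^ (50 * D + 100) := by ring
    _ ≤ _ := pow_le_pow_right₀ (by linarith) (by omega)

/-- 2-adic bound -/
theorem two_bound : ∃ K : ℝ, ∀ D : ℕ, 2 ≤ D → ∀ s : Fin 20 → ℕ,
    ((padicNorm 2 (A D s).det : ℚ) : ℝ) ≤
      Real.exp (K * D * Real.log D - 6 * Real.log 2 * (D : ℝ) ^ 2) := by
  refine ⟨100, fun D hD s => ?_⟩
  have h : ((padicNorm 2 (A D s).det : ℚ) : ℝ) * 2 ^ (6 * D ^ 2) ≤ (D : ℝ) ^ (100 * D) := by
    exact_mod_cast two_rat D hD s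
  have hD0 : (0 : ℝ) < D := by exact_mod_cast (show 0 < D by omega)
  rw [Real.exp_sub, le_div_iff₀ (Real.exp_pos _),
    show 6 * Real.log 2 * (D : ℝ) ^ 2 = ((6 * D ^ 2 : ℕ) : ℝ) * Real.log 2 by push_cast; ring,
    show 100 * (D : ℝ) * Real.log D = ((100 * D : ℕ) : ℝ) * Real.log D by push_cast; ring,
    Real.exp_nat_mul, Real.exp_nat_mul, Real.exp_log two_pos, Real.exp_log hD0]
  exact h

end Pool.Agent.Lib.MP_6aa000_nt.NW
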