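import Pool.Agent.Lib.MP_6aa000_nt.NW.NonZero
import Pool.Agent.Lib.MP_6aa000_nt.NW.Odd
import Pool.Agent.Lib.MP_6aa000_nt.NW.Real
import Pool.Agent.Lib.MP_6aa000_nt.NW.Two
import Pool.Agent.Lib.MP_6aa000_nt.NW.Sum

namespace Pool.Agent.Lib.MP_6aa000_nt.NW

open Finset Filter

/-- a non-Wieferich prime divides 2^n - 1 exactly once -/
theorem not_powerful (p : ℕ) (hp : p.Prime) (h2 : p ≠ 2) (hW : ¬ p ^ 2 ∣ 2 ^ (p - 1) - 1)
    (n : ℕ) (hn : p - 1 ∣ n) (hpn : ¬ p ∣ n) (x y : ℤ) : 1 + x ^ 2 * y ^ 3 ≠ 2 ^ n := by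
  intro h
  obtain ⟨k, rfl⟩ := hn
  have hcop : Nat.Coprime 2 p := (Nat.coprime_primes Nat.prime_two hp).2 (Ne.symm h2)
  have h1 : p ∣ 2 ^ (p - 1) - 1 := by
    have := Nat.ModEq.pow_totient hcop
    rw [Nat.totient_prime hp] at this
    exact (Nat.modEq_iff_dvd' Nat.one_le_two_pow).1 this.symm
  obtain ⟨u, hu⟩ := h1
  have hu1 : ¬ p ∣ u := by
    rintro ⟨v, rfl⟩
    exact hW ⟨v, by rw [hu]; ring⟩
  have hu2 : (2 : ℤ) ^ (p - 1) = 1 + p * u := by
    have h3 : 2 ^ (p - 1) = 1 + p * u := by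
      have : 1 ≤ 2 ^ (p - 1) := Nat.one_le_two_pow
      omega
    exact_mod_cast h3
  have h3 : ∀ k : ℕ, ∃ t : ℤ, (1 + (p : ℤ) * u) ^ k = 1 + k * (p * u) + p ^ 2 * t := by
    intro k
    induction k with
    | zero => exact ⟨0, by simp⟩
    | succ k ih =>
      obtain ⟨t, ht⟩ := ih
      exact ⟨t + k * u ^ 2 + p * u * t, by rw [pow_succ, ht]; push_cast; ring⟩
  obtain ⟨t, ht⟩ := h3 k
  rw [pow_mul, hu2, ht] at h
  have hpi : Prime (p : ℤ) := Nat.prime_iff_prime_int.1 hp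
  have h4 : x ^ 2 * y ^ 3 = p * (k * u + p * t) := by linear_combination h
  have h5 : (p : ℤ) ^ 2 ∣ x ^ 2 * y ^ 3 := by
    rcases hpi.dvd_or_dvd (⟨_, h4⟩ : (p : ℤ) ∣ x ^ 2 * y ^ 3) with h6 | h6
    · exact (pow_dvd_pow_of_dvd (hpi.dvd_of_dvd_pow h6) 2).mul_right _
    · exact ((pow_dvd_pow_of_dvd (hpi.dvd_of_dvd_pow h6) 2).trans
        (pow_dvd_pow y (by norm_num))).mul_left _
  rw [h4, sq] at h5
  have h6 := (mul_dvd_mul_iff_left hpi.ne_zero).1 h5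
  have h7 : (p : ℤ) ∣ k * u := (dvd_add_left (dvd_mul_right _ _)).1 h6
  have h8 : p ∣ k * u := by exact_mod_cast h7
  rcases (Nat.Prime.dvd_mul hp).1 h8 with h9 | h9
  · exact hpn (h9.mul_left _)
  · exact hu1 h9

theorem norm_odd (D : ℕ) (s : Fin 20 → ℕ) (p : ℕ) (hp : p.Prime) (h2 : p ≠ 2) :
    ((padicNorm p (A D s).det : ℚ) : ℝ) ≤ Real.exp (((e1 D p + e2 D p : ℕ) : ℝ) * Real.log p +
      (if ¬ p ^ 2 ∣ 2 ^ (p - 1) - 1 then 2 * D * Real.log p else 0) +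
      if p ^ 2 ≤ 16 * D + 80 then 6 * D * Real.log (16 * D + 80) else 0) := by
  have : Fact p.Prime := ⟨hp⟩
  have hp0 : (0 : ℝ) < p := by exact_mod_cast hp.pos
  have hl : 0 ≤ Real.log p := Real.log_natCast_nonneg p
  have hA : 0 ≤ ((e1 D p + e2 D p : ℕ) : ℝ) * Real.log p := by positivity
  have hB : 0 ≤ if ¬ p ^ 2 ∣ 2 ^ (p - 1) - 1 then 2 * D * Real.log p else 0 := by
    split_ifs <;> positivity
  have hpow : ∀ k : ℕ, (((p : ℚ) ^ k : ℚ) : ℝ) = Real.exp (k * Real.log p) := fun k => by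
    rw [Real.exp_nat_mul, Real.exp_log hp0]
    push_cast
    rfl
  by_cases hb : p ^ 2 ≤ 16 * D + 80
  · rw [if_pos hb]
    have h1 : ((padicNorm p (A D s).det : ℚ) : ℝ) ≤ (((16 * (D : ℚ) + 80) ^ (6 * D) : ℚ) : ℝ) :=
      Rat.cast_le.2 (odd_small D s p)
    have h3 : (((16 * (D : ℚ) + 80) ^ (6 * D) : ℚ) : ℝ) =
        Real.exp (6 * D * Real.log (16 * D + 80)) := by
      have : (6 : ℝ) * D = ((6 * D : ℕ) : ℝ) := by push_cast; ring
      rw [this, Real.exp_nat_mul, Real.exp_log (by positivity)]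
      push_cast
      rfl
    rw [h3] at h1
    exact h1.trans (Real.exp_le_exp.2 (by linarith))
  · rw [if_neg hb, add_zero]
    by_cases hW : p ^ 2 ∣ 2 ^ (p - 1) - 1
    · have h1 := (Rat.cast_le (K := ℝ)).2 (odd_W D s p h2 (by omega) hW)
      rw [hpow] at h1
      exact h1.trans (Real.exp_le_exp.2 (by linarith))
    · have h1 := (Rat.cast_le (K := ℝ)).2 (odd_N D s p (by omega))
      rw [hpow] at h1
      refine h1.trans (Real.exp_le_exp.2 ?_)
      rw [if_pos hW]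
      push_cast
      have : 0 ≤ (e2 D p : ℝ) * Real.log p := by positivity
      nlinarith

theorem small_sum (D : ℕ) (hD : 5 ≤ D) (S : Finset ℕ) :
    ∑ p ∈ S, (if p ^ 2 ≤ 16 * D + 80 then 6 * D * Real.log (16 * D + 80) else 0) ≤
      252 * (D * (√(D : ℝ) * Real.log D)) := by
  have hD' : (5 : ℝ) ≤ D := by exact_mod_cast hD
  rw [← sum_filter, sum_const, nsmul_eq_mul]
  have h1 : (S.filter fun p => p ^ 2 ≤ 16 * D + 80) ⊆ range (Nat.sqrt (16 * D + 80) + 1) := by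
    intro p hp
    rw [mem_range, Nat.lt_succ_iff, Nat.le_sqrt']
    exact (mem_filter.1 hp).2
  have h2 : ((S.filter fun p => p ^ 2 ≤ 16 * D + 80).card : ℝ) ≤ Nat.sqrt (16 * D + 80) + 1 := by
    have := card_le_card h1
    rw [card_range] at this
    exact_mod_cast this
  have h3 : (Nat.sqrt (16 * D + 80) : ℝ) ≤ 6 * √(D : ℝ) := by
    refine Real.nat_sqrt_le_real_sqrt.trans ?_
    rw [Real.sqrt_le_left (by positivity), mul_pow, Real.sq_sqrt (by positivity)]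
    push_cast
    linarith
  have h4 : 1 ≤ √(D : ℝ) := Real.one_le_sqrt.2 (by linarith)
  have h5 : Real.log (16 * D + 80) ≤ 6 * Real.log D := by
    have : (16 : ℝ) * D + 80 ≤ (D : ℝ) ^ 6 := by
      have h6 : (5 : ℝ) ^ 5 ≤ (D : ℝ) ^ 5 := pow_le_pow_left₀ (by norm_num) hD' 5
      nlinarith
    calc _ ≤ Real.log ((D : ℝ) ^ 6) := Real.log_le_log (by positivity) this
      _ = _ := by rw [Real.log_pow]; norm_num
  have h6 : 0 ≤ Real.log (16 * (D : ℝ) + 80) := Real.log_nonneg (by linarith)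
  calc _ ≤ (7 * √(D : ℝ)) * (6 * D * (6 * Real.log D)) :=
        mul_le_mul (by linarith) (by gcongr) (by positivity) (by positivity)
    _ = _ := by ring

theorem log_small (K ε : ℝ) (hε : 0 < ε) :
    ∀ᶠ D : ℕ in atTop, K * (D * (√(D : ℝ) * Real.log D)) ≤ ε * (D : ℝ) ^ 2 := by
  have h := (isLittleO_log_rpow_atTop (show (0 : ℝ) < 1 / 2 by norm_num)).bound
    (show 0 < ε / (|K| + 1) by positivity)
  filter_upwards [tendsto_natCast_atTop_atTop.eventually h] with D hD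
  have h0 : (0 : ℝ) ≤ D := by positivity
  have hl : 0 ≤ Real.log D := Real.log_natCast_nonneg D
  rw [Real.norm_of_nonneg hl, ← Real.sqrt_eq_rpow, Real.norm_of_nonneg (by positivity)] at hD
  have h1 : √(D : ℝ) * Real.log D ≤ ε / (|K| + 1) * D := by
    calc _ ≤ √(D : ℝ) * (ε / (|K| + 1) * √(D : ℝ)) := by gcongr
      _ = ε / (|K| + 1) * (√(D : ℝ) * √(D : ℝ)) := by ring
      _ = _ := by rw [Real.mul_self_sqrt h0]
  calc _ ≤ (|K| + 1) * (D * (√(D : ℝ) * Real.log D)) :=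
        mul_le_mul_of_nonneg_right (by linarith [le_abs_self K]) (by positivity)
    _ ≤ (|K| + 1) * (D * (ε / (|K| + 1) * D)) := by gcongr
    _ = _ := by field_simp

theorem theta_nw : ∀ᶠ D : ℕ in atTop, 17 / 200 * (D : ℝ) ≤
    ∑ p ∈ (range (16 * D + 81)).filter
      (fun p => p.Prime ∧ p ≠ 2 ∧ ¬ p ^ 2 ∣ 2 ^ (p - 1) - 1), Real.log p := by
  obtain ⟨K1, hK1⟩ := real_bound
  obtain ⟨K2, hK2⟩ := two_bound
  filter_upwards [sum_bound (1 / 400) (by norm_num), eventually_ge_atTop 5,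
    log_small (|K1| + |K2| + 252) (1 / 400) (by norm_num)] with D h1 hD h2
  obtain ⟨s, hs⟩ := exists_det_ne D
  have hD' : (5 : ℝ) ≤ D := by exact_mod_cast hD
  have hpf := prod_formula _ hs (16 * D + 81) (fun p hp hb => by
    have : Fact p.Prime := ⟨hp⟩
    exact odd_large D s p (by omega))
  set S := (range (16 * D + 81)).filter Nat.Prime with hS
  have h2S : 2 ∈ S := mem_filter.2 ⟨mem_range.2 (by omega), Nat.prime_two⟩
  rw [← mul_prod_erase S _ h2S] at hpf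
  have hpf' := (Rat.cast_le (K := ℝ)).2 hpf
  rw [Rat.cast_mul, Rat.cast_mul, Rat.cast_prod, Rat.cast_abs, Rat.cast_one] at hpf'
  have h3 := prod_le_prod (s := S.erase 2)
    (fun p _ => (Rat.cast_nonneg (K := ℝ)).2 (padicNorm.nonneg (p := p) (A D s).det))
    (fun p hp => norm_odd D s p (mem_filter.1 (mem_of_mem_erase hp)).2 (ne_of_mem_erase hp))
  rw [← Real.exp_sum] at h3
  have h4 := hpf'.trans (mul_le_mul (hK1 D (by omega) s) (mul_le_mul (hK2 D (by omega) s) h3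
    (prod_nonneg fun p _ => Rat.cast_nonneg.2 (padicNorm.nonneg _)) (Real.exp_pos _).le)
    (mul_nonneg (Rat.cast_nonneg.2 (padicNorm.nonneg _))
      (prod_nonneg fun p _ => Rat.cast_nonneg.2 (padicNorm.nonneg _))) (Real.exp_pos _).le)
  rw [← Real.exp_add, ← Real.exp_add, Real.one_le_exp_iff, sum_add_distrib, sum_add_distrib] at h4
  have h5 := small_sum D hD (S.erase 2)
  have h6 : ∑ p ∈ S.erase 2, ((e1 D p + e2 D p : ℕ) : ℝ) * Real.log p ≤
      ∑ p ∈ S, ((e1 D p + e2 D p : ℕ) : ℝ) * Real.log p :=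
    sum_le_sum_of_subset_of_nonneg (erase_subset _ _) fun p _ _ =>
      mul_nonneg (by positivity) (Real.log_natCast_nonneg p)
  have h7 : ∑ p ∈ S.erase 2, (if ¬ p ^ 2 ∣ 2 ^ (p - 1) - 1 then 2 * D * Real.log p else 0) =
      2 * D * ∑ p ∈ (range (16 * D + 81)).filter
        (fun p => p.Prime ∧ p ≠ 2 ∧ ¬ p ^ 2 ∣ 2 ^ (p - 1) - 1), Real.log p := by
    rw [← sum_filter, mul_sum]
    refine sum_congr ?_ fun _ _ => rfl
    ext p
    simp only [hS, mem_filter, mem_erase]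
    tauto
  have hl : 0 ≤ Real.log D := Real.log_natCast_nonneg D
  have h8 : 1 ≤ √(D : ℝ) := Real.one_le_sqrt.2 (by linarith)
  have h9 : ∀ K : ℝ, K * D * Real.log D ≤ |K| * (D * (√(D : ℝ) * Real.log D)) := fun K => by
    calc K * D * Real.log D = K * (D * (1 * Real.log D)) := by ring
      _ ≤ |K| * (D * (1 * Real.log D)) :=
        mul_le_mul_of_nonneg_right (le_abs_self K) (by positivity)
      _ ≤ _ := by gcongr
  have h10 := Real.log_two_gt_d9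
  have h11 : 0.6931471803 * (D : ℝ) ^ 2 ≤ Real.log 2 * (D : ℝ) ^ 2 := by gcongr
  have h12 := h9 K1
  have h13 := h9 K2
  rw [h7] at h4
  have hD0 : (0 : ℝ) < 2 * D := by linarith
  refine le_of_mul_le_mul_left ?_ hD0
  nlinarith

theorem count_nw : ∀ᶠ X : ℕ in atTop, (X : ℝ) / (200 * Real.log X) ≤
    (((Icc 1 X).filter fun p => p.Prime ∧ p ≠ 2 ∧ ¬ p ^ 2 ∣ 2 ^ (p - 1) - 1).card : ℝ) := by
  obtain ⟨D0, hD0⟩ := eventually_atTop.1 theta_nw
  filter_upwards [eventually_ge_atTop (16 * D0 + 2000)] with X hX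
  have h1 := hD0 ((X - 80) / 16) (by omega)
  have hX' : (2000 : ℝ) ≤ X := by exact_mod_cast (by omega : 2000 ≤ X)
  have hl : 0 < Real.log X := Real.log_pos (by linarith)
  have h2 : ∑ p ∈ (range (16 * ((X - 80) / 16) + 81)).filter
      (fun p => p.Prime ∧ p ≠ 2 ∧ ¬ p ^ 2 ∣ 2 ^ (p - 1) - 1), Real.log p ≤
      ∑ p ∈ (Icc 1 X).filter (fun p => p.Prime ∧ p ≠ 2 ∧ ¬ p ^ 2 ∣ 2 ^ (p - 1) - 1),
        Real.log p := by
    refine sum_le_sum_of_subset_of_nonneg (fun p hp => ?_) fun p _ _ => Real.log_natCast_nonneg p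
    obtain ⟨h3, h4⟩ := mem_filter.1 hp
    have := mem_range.1 h3
    exact mem_filter.2 ⟨mem_Icc.2 ⟨h4.1.one_le, by omega⟩, h4⟩
  have h3 := sum_le_card_nsmul
    ((Icc 1 X).filter fun p => p.Prime ∧ p ≠ 2 ∧ ¬ p ^ 2 ∣ 2 ^ (p - 1) - 1)
    (fun p : ℕ => Real.log p) (Real.log X) (fun p hp => by
      obtain ⟨h4, h5⟩ := mem_Icc.1 (mem_filter.1 hp).1
      exact Real.log_le_log (by exact_mod_cast h4) (by exact_mod_cast h5))
  rw [nsmul_eq_mul] at h3
  have h4 : (X : ℝ) ≤ 16 * (((X - 80) / 16 : ℕ) : ℝ) + 96 := by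
    exact_mod_cast (by omega : X ≤ 16 * ((X - 80) / 16) + 96)
  rw [div_le_iff₀ (by positivity)]
  nlinarith

end Pool.Agent.Lib.MP_6aa000_nt.NW
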