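import Pool.Agent.Lib.MP_6aa000_nt.NW.PF

namespace Pool.Agent.Lib.MP_6aa000_nt.NW

open Finset Filter

/-- harmonic sums modulo p -/
def hs (p n : ℕ) [Fact p.Prime] : ZMod p := ∑ i ∈ range n, ((i : ZMod p) + 1)⁻¹

/-- odd harmonic sums modulo p -/
def ho (p n : ℕ) [Fact p.Prime] : ZMod p := ∑ i ∈ range n, (2 * (i : ZMod p) + 1)⁻¹

section
variable {p : ℕ} [Fact p.Prime]

theorem hs_succ (n : ℕ) : hs p (n + 1) = hs p n + ((n : ZMod p) + 1)⁻¹ := sum_range_succ _ _
theorem ho_succ (n : ℕ) : ho p (n + 1) = ho p n + (2 * (n : ZMod p) + 1)⁻¹ := sum_range_succ _ _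

theorem two_ne (hp : p ≠ 2) : (2 : ZMod p) ≠ 0 := by
  intro h
  have h1 : ((2 : ℕ) : ZMod p) = 0 := by exact_mod_cast h
  rw [ZMod.natCast_eq_zero_iff] at h1
  exact hp ((Nat.prime_dvd_prime_iff_eq Fact.out Nat.prime_two).1 h1)

theorem hs_sym (k : ℕ) : ∀ n, n + k + 1 = p → hs p n = hs p (p - 1) + hs p k := by
  induction k with
  | zero =>
    intro n h
    have : p - 1 = n := by omega
    simp [this, hs]
  | succ k ih =>
    intro n h
    have h1 := ih (n + 1) (by omega)
    have h2 : ((n : ZMod p) + 1) = -((k : ZMod p) + 1) := by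
      have : ((n + (k + 1) + 1 : ℕ) : ZMod p) = 0 := by rw [h]; simp
      push_cast at this
      linear_combination this
    rw [hs_succ, h2, inv_neg] at h1
    rw [hs_succ]
    linear_combination h1

theorem hs_split (hp : p ≠ 2) (r : ℕ) : 2 * hs p (2 * r) = 2 * ho p r + hs p r := by
  induction r with
  | zero => simp [hs, ho]
  | succ r ih =>
    have h2 := two_ne hp
    have h3 : 2 * (((2 * r + 1 : ℕ) : ZMod p) + 1)⁻¹ = ((r : ZMod p) + 1)⁻¹ := by
      have : (((2 * r + 1 : ℕ) : ZMod p) + 1) = 2 * ((r : ZMod p) + 1) := by push_cast; ring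
      rw [this, mul_inv, ← mul_assoc, mul_inv_cancel₀ h2, one_mul]
    rw [show 2 * (r + 1) = 2 * r + 1 + 1 by ring, hs_succ, hs_succ, hs_succ, ho_succ]
    have h4 : ((2 * r : ℕ) : ZMod p) = 2 * (r : ZMod p) := by push_cast; ring
    rw [h4]
    linear_combination ih + h3

theorem ho_eq (hp : p ≠ 2) (h : ℕ) (hh : 2 * h + 1 = p) (r : ℕ) :
    ∀ k, r + k = h → 2 * ho p r = hs p k - hs p h := by
  induction r with
  | zero => intro k hk; simp at hk; simp [ho, hk]
  | succ r ih =>
    intro k hk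
    have h1 := ih (k + 1) (by omega)
    have h2 := two_ne hp
    have h3 : 2 * (r : ZMod p) + 1 = -(2 * ((k : ZMod p) + 1)) := by
      have : ((2 * (r + 1 + k) + 1 : ℕ) : ZMod p) = 0 := by rw [hk, hh]; simp
      push_cast at this
      linear_combination this
    have h4 : 2 * (2 * (r : ZMod p) + 1)⁻¹ = -((k : ZMod p) + 1)⁻¹ := by
      rw [h3, inv_neg, mul_inv, mul_neg, ← mul_assoc, mul_inv_cancel₀ h2, one_mul]
    rw [hs_succ] at h1
    rw [ho_succ]
    linear_combination h1 + h4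

theorem alt_eq (hp : p ≠ 2) (r : ℕ) :
    ∑ i ∈ range (2 * r), (-1 : ZMod p) ^ i * ((i : ZMod p) + 1)⁻¹ = hs p (2 * r) - hs p r := by
  induction r with
  | zero => simp [hs]
  | succ r ih =>
    have h2 := two_ne hp
    have h3 : 2 * (((2 * r + 1 : ℕ) : ZMod p) + 1)⁻¹ = ((r : ZMod p) + 1)⁻¹ := by
      have : (((2 * r + 1 : ℕ) : ZMod p) + 1) = 2 * ((r : ZMod p) + 1) := by push_cast; ring
      rw [this, mul_inv, ← mul_assoc, mul_inv_cancel₀ h2, one_mul]
    rw [show 2 * (r + 1) = 2 * r + 1 + 1 by ring, sum_range_succ, sum_range_succ, ih, hs_succ,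
      hs_succ, hs_succ, pow_succ, pow_mul]
    simp only [neg_one_sq, one_pow]
    linear_combination -h3

theorem choose_pred (i : ℕ) (hi : i < p) : (((p - 1).choose i : ℕ) : ZMod p) = (-1) ^ i := by
  induction i with
  | zero => simp
  | succ i ih =>
    have hp : p.Prime := Fact.out
    have h1 : p.choose (i + 1) = (p - 1).choose i + (p - 1).choose (i + 1) := by
      conv_lhs => rw [show p = p - 1 + 1 by omega]
      exact Nat.choose_succ_succ _ _
    have h2 : ((p.choose (i + 1) : ℕ) : ZMod p) = 0 :=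
      (ZMod.natCast_eq_zero_iff _ _).2 (hp.dvd_choose_self (by omega) hi)
    rw [h1] at h2
    push_cast at h2
    rw [ih (by omega)] at h2
    rw [pow_succ]
    linear_combination h2

theorem hs_half (hp : p ≠ 2) (hW : p ^ 2 ∣ 2 ^ (p - 1) - 1) (h : ℕ) (hh : 2 * h + 1 = p) :
    hs p h = 0 := by
  have hpp : p.Prime := Fact.out
  have h0 : hs p (p - 1) = 0 := by
    have := hs_sym (p := p) h h (by omega)
    linear_combination -this
  have hp1 : p - 1 = 2 * h := by omega
  set b : ℕ → ℕ := fun i => p.choose (i + 1) / p with hb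
  have hb1 : ∀ i < 2 * h, p * b i = p.choose (i + 1) := fun i hi =>
    Nat.mul_div_cancel' (hpp.dvd_choose_self (by omega) (by omega))
  have hb2 : ∀ i < 2 * h, (b i : ZMod p) = (-1) ^ i * ((i : ZMod p) + 1)⁻¹ := by
    intro i hi
    have h1 : p * (p - 1).choose i = p.choose (i + 1) * (i + 1) := by
      have := Nat.add_one_mul_choose_eq (p - 1) i
      rwa [show p - 1 + 1 = p by omega] at this
    rw [← hb1 i hi, mul_assoc] at h1
    have h2 := Nat.eq_of_mul_eq_mul_left hpp.pos h1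
    have h3 : ((i : ZMod p) + 1) ≠ 0 := by
      intro h4
      have h5 : ((i + 1 : ℕ) : ZMod p) = 0 := by exact_mod_cast h4
      rw [ZMod.natCast_eq_zero_iff] at h5
      have := Nat.le_of_dvd (by omega) h5
      omega
    have h4 := choose_pred (p := p) i (by omega)
    rw [h2] at h4
    push_cast at h4
    rw [← h4, mul_assoc, mul_inv_cancel₀ h3, mul_one]
  have hsum : p * ∑ i ∈ range (2 * h), b i + 2 = 2 ^ p := by
    have h1 := Nat.sum_range_choose p
    rw [sum_range_succ, Nat.choose_self] at h1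
    conv_lhs at h1 => rw [show range p = range (2 * h + 1) by rw [hh], sum_range_succ']
    rw [mul_sum, sum_congr rfl fun i hi => hb1 i (mem_range.1 hi)]
    simp only [Nat.choose_zero_right] at h1
    omega
  have hdv : p ∣ ∑ i ∈ range (2 * h), b i := by
    obtain ⟨t, ht⟩ := hW
    have h1 : 2 ^ p = 2 * 2 ^ (p - 1) := by
      conv_lhs => rw [show p = p - 1 + 1 by omega, pow_succ]
      ring
    have h2 : 1 ≤ 2 ^ (p - 1) := Nat.one_le_two_pow
    have h3 : p * ∑ i ∈ range (2 * h), b i = p * (p * (2 * t)) := by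
      have : p * (p * (2 * t)) = 2 * (p ^ 2 * t) := by ring
      omega
    exact ⟨_, Nat.eq_of_mul_eq_mul_left hpp.pos h3⟩
  have h5 : ((∑ i ∈ range (2 * h), b i : ℕ) : ZMod p) = 0 := (ZMod.natCast_eq_zero_iff _ _).2 hdv
  push_cast at h5
  rw [sum_congr rfl fun i hi => hb2 i (mem_range.1 hi), alt_eq hp, ← hp1, h0] at h5
  linear_combination -h5

theorem hs_quarter (hp : p ≠ 2) (hW : p ^ 2 ∣ 2 ^ (p - 1) - 1) (g j : ℕ) (hj : j = 1 ∨ j = 3)
    (hg : 4 * g + j = p) : hs p g = 0 := by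
  have h2 := two_ne hp
  have h3 := hs_split hp g
  apply mul_left_cancel₀ h2
  rcases hj with rfl | rfl
  · have h0 := hs_half hp hW (2 * g) (by omega)
    have h1 := ho_eq hp (2 * g) (by omega) g g (by omega)
    linear_combination -h3 - h1 + 3 * h0
  · have h0 := hs_half hp hW (2 * g + 1) (by omega)
    have h1 := ho_eq hp (2 * g + 1) (by omega) (g + 1) g (by omega)
    have h4 := hs_succ (p := p) (2 * g)
    have h5 := ho_succ (p := p) g
    have h6 : ((2 * g : ℕ) : ZMod p) = 2 * (g : ZMod p) := by push_cast; ring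
    rw [h6] at h4
    linear_combination -h3 - h1 + 3 * h0 - 2 * h4 + 2 * h5

theorem norm_of_hs (n : ℕ) (hn : n < p) (h : hs p n = 0) :
    padicNorm p (harmonic n) ≤ 1 / (p : ℚ) := by
  have hpp : p.Prime := Fact.out
  set N : ℕ := ∑ i ∈ range n, n.factorial / (i + 1) with hN
  have hd : ∀ i < n, (i + 1) * (n.factorial / (i + 1)) = n.factorial := fun i hi =>
    Nat.mul_div_cancel' (Nat.dvd_factorial (by omega) (by omega))
  have h1 : (N : ℚ) = n.factorial * harmonic n := by
    rw [hN, harmonic, mul_sum, Nat.cast_sum]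
    refine sum_congr rfl fun i hi => ?_
    have h2 : ((i + 1 : ℕ) : ℚ) ≠ 0 := by positivity
    rw [eq_mul_inv_iff_mul_eq₀ h2, mul_comm]
    exact_mod_cast hd i (mem_range.1 hi)
  have h2 : (N : ZMod p) = n.factorial * hs p n := by
    rw [hN, hs, mul_sum, Nat.cast_sum]
    refine sum_congr rfl fun i hi => ?_
    have hi' := mem_range.1 hi
    have h3 : ((i : ZMod p) + 1) ≠ 0 := by
      intro h4
      have h5 : ((i + 1 : ℕ) : ZMod p) = 0 := by exact_mod_cast h4
      rw [ZMod.natCast_eq_zero_iff] at h5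
      have := Nat.le_of_dvd (by omega) h5
      omega
    rw [eq_mul_inv_iff_mul_eq₀ h3, mul_comm]
    exact_mod_cast congrArg (Nat.cast : ℕ → ZMod p) (hd i hi')
  rw [h, mul_zero, ZMod.natCast_eq_zero_iff] at h2
  have h3 : padicNorm p (n.factorial : ℚ) = 1 :=
    (padicNorm.nat_eq_one_iff _).2 fun h4 => absurd ((hpp.dvd_factorial).1 h4) (by omega)
  have h4 : padicNorm p ((N : ℤ) : ℚ) ≤ (p : ℚ) ^ (-((1 : ℕ) : ℤ)) :=
    padicNorm.dvd_iff_norm_le.1 (by simpa using Int.natCast_dvd_natCast.2 h2)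
  rw [Int.cast_natCast, h1, padicNorm.mul, h3, one_mul] at h4
  simpa using h4

end

/-- at a Wieferich prime the harmonic numbers of index [p/4], [3p/4] vanish mod p -/
theorem harm_wief (p : ℕ) [Fact p.Prime] (hp : p ≠ 2) (hW : p ^ 2 ∣ 2 ^ (p - 1) - 1)
    (n j : ℕ) (hj : j = 1 ∨ j = 3) (hn : n < p) (hd : p ∣ 4 * n + j) :
    padicNorm p (harmonic n) ≤ 1 / (p : ℚ) := by
  refine norm_of_hs n hn ?_
  have hpp : p.Prime := Fact.out
  obtain ⟨i, hi⟩ := hd
  have hi4 : i < 4 := by
    by_contra h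
    have : p * 4 ≤ p * i := Nat.mul_le_mul_left _ (by omega)
    omega
  have hodd := hpp.eq_two_or_odd.resolve_left hp
  interval_cases i
  · omega
  · exact hs_quarter hp hW n j hj (by omega)
  · omega
  · have h1 := hs_quarter hp hW (p - 1 - n) (4 - j) (by omega) (by omega)
    have h2 := hs_sym (p := p) (p - 1 - n) n (by omega)
    have h3 := hs_sym (p := p) (p / 2) (p / 2) (by omega)
    linear_combination h2 + h1 - h3

end Pool.Agent.Lib.MP_6aa000_nt.NW
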