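import Pool.Agent.Lib.MP_6aa000_nt.NW.Defs

namespace Pool.Agent.Lib.MP_6aa000_nt.NW

open Finset Filter Polynomial

theorem ev_ne {Q : ℚ[X]} (hQ : Q ≠ 0) : ∀ᶠ m : ℕ in atTop, Q.eval (m : ℚ) ≠ 0 :=
  (tendsto_natCast_atTop_atTop (R := ℚ)).eventually (Q.eventually_atTop_not_isRoot hQ)

theorem poly_zero {F : ℚ[X]} (h : ∀ᶠ m : ℕ in atTop, F.eval (m : ℚ) = 0) : F = 0 := by
  by_contra hF
  obtain ⟨m, h1, h2⟩ := (h.and (ev_ne hF)).exists
  exact h2 h1

/-- uniqueness of a sum of simple fractions with distinct poles -/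
theorem pf {ι : Type*} [DecidableEq ι] (S : Finset ι) (g b : ι → ℚ) (hg : Set.InjOn g S)
    (hpos : ∀ k ∈ S, 0 < g k)
    (h : ∀ᶠ m : ℕ in atTop, ∑ k ∈ S, b k * (1 / ((m : ℚ) + g k)) = 0) : ∀ k ∈ S, b k = 0 := by
  have hF : (∑ k ∈ S, C (b k) * ∏ k' ∈ S.erase k, (X + C (g k')) : ℚ[X]) = 0 := by
    refine poly_zero (h.mono fun m hm => ?_)
    have h1 : ∀ k ∈ S, b k * ∏ k' ∈ S.erase k, ((m : ℚ) + g k') =
        (∏ k' ∈ S, ((m : ℚ) + g k')) * (b k * (1 / ((m : ℚ) + g k))) := by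
      intro k hk
      have h2 : (m : ℚ) + g k ≠ 0 := by
        have := hpos k hk
        positivity
      rw [← mul_prod_erase S (fun k' => (m : ℚ) + g k') hk]
      field_simp
    simp only [eval_finsetSum, eval_mul, eval_C, eval_prod, eval_add, eval_X]
    rw [sum_congr rfl h1, ← mul_sum, hm, mul_zero]
  intro k hk
  have h1 := congrArg (eval (-g k)) hF
  simp only [eval_finsetSum, eval_mul, eval_C, eval_prod, eval_add, eval_X, eval_zero] at h1
  rw [sum_eq_single k] at h1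
  · refine (mul_eq_zero.1 h1).resolve_right (prod_ne_zero_iff.2 fun k' hk' h2 => ?_)
    obtain ⟨h3, h4⟩ := mem_erase.1 hk'
    exact h3 (hg h4 hk (by linarith))
  · intro k' _ hne
    exact mul_eq_zero_of_right _ (prod_eq_zero (mem_erase.2 ⟨hne.symm, hk⟩) (by ring))
  · intro h2
    exact absurd hk h2

/-- fractions with distinct poles, first family -/
theorem ind0 (D : ℕ) (q : ℕ → ℚ)
    (h : ∀ᶠ m : ℕ in atTop, ∑ l ∈ range D, q l * a 0 (l + m) = 0) : ∀ l < D, q l = 0 := by
  intro l hl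
  refine pf (range D) (fun l => (l : ℚ) + 1) q ?_ (fun k _ => by positivity)
    (h.mono fun m hm => ?_) l (mem_range.2 hl)
  · intro x _ y _ hxy
    exact_mod_cast add_right_cancel hxy
  · rw [← hm]
    refine sum_congr rfl fun k _ => ?_
    rw [a_zero]
    push_cast
    ring

/-- fractions with distinct poles, second family -/
theorem ind1 (D : ℕ) (q r : ℕ → ℚ)
    (h : ∀ᶠ m : ℕ in atTop, ∑ l ∈ range D, (q l * c 1 (l + m) + r l * c 3 (l + m)) = 0) :
    ∀ l < D, q l = 0 ∧ r l = 0 := by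
  have key := pf ((range D).disjSum (range D))
    (Sum.elim (fun l : ℕ => (l : ℚ) + 1 / 4) (fun l : ℕ => (l : ℚ) + 3 / 4))
    (Sum.elim (fun l => q l / 4) (fun l => r l / 4)) ?_ ?_ (h.mono fun m hm => ?_)
  · intro l hl
    have h1 := key (Sum.inl l) (by simpa using hl)
    have h2 := key (Sum.inr l) (by simpa using hl)
    simp only [Sum.elim_inl, Sum.elim_inr] at h1 h2
    constructor <;> linarith
  · rintro (x | x) _ (y | y) _ hxy <;> simp only [Sum.elim_inl, Sum.elim_inr] at hxy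
    · have : x = y := by exact_mod_cast add_right_cancel hxy
      rw [this]
    · exfalso
      have h1 : ((4 * x + 1 : ℕ) : ℚ) = ((4 * y + 3 : ℕ) : ℚ) := by push_cast; linarith
      have h2 : 4 * x + 1 = 4 * y + 3 := by exact_mod_cast h1
      omega
    · exfalso
      have h1 : ((4 * x + 3 : ℕ) : ℚ) = ((4 * y + 1 : ℕ) : ℚ) := by push_cast; linarith
      have h2 : 4 * x + 3 = 4 * y + 1 := by exact_mod_cast h1
      omega
    · have : x = y := by exact_mod_cast add_right_cancel hxy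
      rw [this]
  · rintro (x | x) _ <;> simp only [Sum.elim_inl, Sum.elim_inr] <;> positivity
  · rw [← hm, sum_disjSum, ← sum_add_distrib]
    refine sum_congr rfl fun l _ => ?_
    simp only [Sum.elim_inl, Sum.elim_inr, c]
    push_cast
    field_simp
    ring

/-- the sequence agrees with a rational function for all large arguments -/
def IsRat (f : ℕ → ℚ) : Prop :=
  ∃ P Q : ℚ[X], Q ≠ 0 ∧ ∀ᶠ m : ℕ in atTop, Q.eval (m : ℚ) * f m = P.eval (m : ℚ)

theorem IsRat.const (x : ℚ) : IsRat fun _ => x :=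
  ⟨C x, 1, one_ne_zero, Eventually.of_forall fun m => by simp⟩

theorem IsRat.add {f g : ℕ → ℚ} (hf : IsRat f) (hg : IsRat g) : IsRat fun m => f m + g m := by
  obtain ⟨P, Q, hQ, h⟩ := hf
  obtain ⟨P', Q', hQ', h'⟩ := hg
  refine ⟨P * Q' + P' * Q, Q * Q', mul_ne_zero hQ hQ', (h.and h').mono fun m hm => ?_⟩
  simp only [eval_add, eval_mul]
  rw [← hm.1, ← hm.2]
  ring

theorem IsRat.mul {f g : ℕ → ℚ} (hf : IsRat f) (hg : IsRat g) : IsRat fun m => f m * g m := by
  obtain ⟨P, Q, hQ, h⟩ := hf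
  obtain ⟨P', Q', hQ', h'⟩ := hg
  refine ⟨P * P', Q * Q', mul_ne_zero hQ hQ', (h.and h').mono fun m hm => ?_⟩
  simp only [eval_mul]
  rw [← hm.1, ← hm.2]
  ring

theorem IsRat.sum {ι : Type*} (S : Finset ι) (f : ι → ℕ → ℚ) (hf : ∀ k ∈ S, IsRat (f k)) :
    IsRat fun m => ∑ k ∈ S, f k m := by
  classical
  induction S using Finset.induction_on with
  | empty => simpa using IsRat.const 0
  | insert k S hk ih =>
    simp only [sum_insert hk]
    exact (hf k (mem_insert_self _ _)).add (ih fun j hj => hf j (mem_insert_of_mem hj))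

theorem IsRat.frac {u v : ℚ} (hu : 0 < u) (hv : 0 < v) : IsRat fun m => 1 / (u * m + v) := by
  refine ⟨1, C u * X + C v, fun h => ?_, Eventually.of_forall fun m => ?_⟩
  · have := congrArg (eval 0) h
    simp only [eval_add, eval_mul, eval_C, eval_X, eval_zero] at this
    linarith
  · have : u * m + v ≠ 0 := by positivity
    simp only [eval_add, eval_mul, eval_C, eval_X, eval_one]
    field_simp

theorem IsRat.congr {f g : ℕ → ℚ} (hf : IsRat f) (h : ∀ m, f m = g m) : IsRat g := by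
  rwa [← funext h]

theorem IsRat.solve {f A B : ℕ → ℚ} (hA : IsRat A) (hB : IsRat B)
    (h0 : ¬ ∀ᶠ m : ℕ in atTop, A m = 0) (h : ∀ᶠ m : ℕ in atTop, f m * A m + B m = 0) :
    IsRat f := by
  obtain ⟨P, Q, hQ, h1⟩ := hA
  obtain ⟨P', Q', hQ', h2⟩ := hB
  have hP : P ≠ 0 := by
    rintro rfl
    exact h0 ((h1.and (ev_ne hQ)).mono fun m hm =>
      (mul_eq_zero.1 (by simpa using hm.1)).resolve_left hm.2)
  refine ⟨-(P' * Q), P * Q', mul_ne_zero hP hQ', ((h1.and h2).and h).mono fun m hm => ?_⟩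
  simp only [eval_mul, eval_neg]
  rw [← hm.1.1, ← hm.1.2]
  linear_combination (eval (m : ℚ) Q * eval (m : ℚ) Q') * hm.2

theorem harmonic_aux (n : ℕ) : ∀ P Q : ℚ[X], Q.natDegree = n → Q ≠ 0 →
    ¬ ∀ᶠ m : ℕ in atTop, Q.eval (m : ℚ) * harmonic m = P.eval (m : ℚ) := by
  induction n using Nat.strong_induction_on with
  | _ n ih =>
  intro P Q hn hQ h
  have hco : ∀ x : ℚ, Q.eval x = 0 → P.eval x ≠ 0 := by
    intro x hx hx'
    obtain ⟨Q1, hQ1⟩ := dvd_iff_isRoot.2 hx
    obtain ⟨P1, hP1⟩ := dvd_iff_isRoot.2 hx'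
    have hQ1' : Q1 ≠ 0 := by
      rintro rfl
      exact hQ (by simpa using hQ1)
    have hd : Q1.natDegree < n := by
      rw [← hn, hQ1, natDegree_mul (X_sub_C_ne_zero x) hQ1', natDegree_X_sub_C]
      omega
    refine ih _ hd P1 Q1 rfl hQ1' ((h.and (ev_ne (X_sub_C_ne_zero x))).mono fun m hm => ?_)
    have h1 := hm.1
    rw [hQ1, hP1, eval_mul, eval_mul, mul_assoc] at h1
    exact mul_left_cancel₀ hm.2 h1
  have hE : ((X + 1) * (P.comp (X + 1) * Q - P * Q.comp (X + 1)) - Q * Q.comp (X + 1) : ℚ[X])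
      = 0 := by
    refine poly_zero ((h.and ((tendsto_add_atTop_nat 1).eventually h)).mono fun m hm => ?_)
    obtain ⟨h1, h2⟩ := hm
    have h3 : (m : ℚ) + 1 ≠ 0 := by positivity
    rw [harmonic_succ] at h2
    push_cast at h2
    simp only [eval_sub, eval_mul, eval_add, eval_comp, eval_X, eval_one]
    rw [← h1, ← h2]
    field_simp
    ring
  have hx : ∀ x : ℚ, (x + 1) * (P.eval (x + 1) * Q.eval x - P.eval x * Q.eval (x + 1)) =
      Q.eval x * Q.eval (x + 1) := by
    intro x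
    have := congrArg (eval x) hE
    simp only [eval_sub, eval_mul, eval_add, eval_comp, eval_X, eval_one, eval_zero] at this
    linarith
  have h0 : Q.eval (-1) = 0 ∨ Q.eval 0 = 0 := by
    have := hx (-1)
    simp only [neg_add_cancel, zero_mul] at this
    exact mul_eq_zero.1 this.symm
  rcases h0 with h0 | h0
  · have hall : ∀ k : ℕ, Q.eval (-((k : ℚ) + 1)) = 0 := by
      intro k
      induction k with
      | zero => simpa using h0
      | succ k ihk =>
        have h1 := hx (-((k : ℚ) + 1 + 1))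
        have h2 : -((k : ℚ) + 1 + 1) + 1 = -((k : ℚ) + 1) := by ring
        rw [h2, ihk, mul_zero, mul_zero, sub_zero] at h1
        have h3 : -((k : ℚ) + 1) ≠ 0 := neg_ne_zero.2 (by positivity)
        push_cast
        exact (mul_eq_zero.1 ((mul_eq_zero.1 h1).resolve_left h3)).resolve_left (hco _ ihk)
    refine hQ (Q.eq_zero_of_infinite_isRoot
      (Set.infinite_of_injective_forall_mem (f := fun k : ℕ => -((k : ℚ) + 1)) ?_ hall))
    intro x y hxy
    exact_mod_cast add_right_cancel (neg_injective hxy)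
  · refine hQ (poly_zero (Eventually.of_forall fun k => ?_))
    induction k with
    | zero => simpa using h0
    | succ k ihk =>
      have h1 := hx k
      rw [ihk, mul_zero, zero_mul, zero_sub] at h1
      have h3 : (k : ℚ) + 1 ≠ 0 := by positivity
      push_cast
      exact (mul_eq_zero.1 (neg_eq_zero.1 ((mul_eq_zero.1 h1).resolve_left h3))).resolve_left
        (hco _ ihk)

theorem not_isRat_harmonic : ¬ IsRat harmonic := by
  rintro ⟨P, Q, hQ, h⟩
  exact harmonic_aux _ P Q rfl hQ h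

theorem harmonic_add (l m : ℕ) :
    harmonic (l + m) = harmonic m + ∑ i ∈ range l, 1 / (1 * (m : ℚ) + (i + 1)) := by
  induction l with
  | zero => simp
  | succ l ih =>
    rw [Nat.add_right_comm, harmonic_succ, ih, sum_range_succ]
    push_cast
    ring

theorem isRat_c (j l : ℕ) (hj : 0 < j) : IsRat fun m => c j (l + m) := by
  have h : (0 : ℚ) < 4 * l + j := by positivity
  refine (IsRat.frac (u := 4) (by norm_num) h).congr fun m => ?_
  simp only [c]
  push_cast
  ring

theorem isRat_a0 (l : ℕ) : IsRat fun m => a 0 (l + m) := by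
  have h : (0 : ℚ) < l + 1 := by positivity
  refine (IsRat.frac (u := 1) (by norm_num) h).congr fun m => ?_
  rw [a_zero]
  push_cast
  ring

/-- the harmonic numbers are not a rational function -/
theorem ind (D : ℕ) (q : Fin 3 → ℕ → ℚ) (c0 c1 : ℚ)
    (hq : ∃ l < D, q 1 l ≠ 0 ∨ q 2 l ≠ 0)
    (h : ∀ᶠ m : ℕ in atTop, c0 * (∑ i, ∑ l ∈ range D, q i l * a i (l + m)) +
      c1 * (∑ l ∈ range D, (q 1 l * c 1 (l + m) + q 2 l * c 3 (l + m))) = 0) :
    c0 = 0 ∧ c1 = 0 := by
  have hA0 : ¬ ∀ᶠ m : ℕ in atTop,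
      ∑ l ∈ range D, (q 1 l * c 1 (l + m) + q 2 l * c 3 (l + m)) = 0 := by
    intro h0
    obtain ⟨l, hl, h1⟩ := hq
    have h2 := ind1 D (q 1) (q 2) h0 l hl
    exact h1.elim (fun h3 => h3 h2.1) fun h3 => h3 h2.2
  have hAl : ∀ l, IsRat fun m => q 1 l * c 1 (l + m) + q 2 l * c 3 (l + m) := fun l =>
    ((IsRat.const _).mul (isRat_c 1 l (by norm_num))).add
      ((IsRat.const _).mul (isRat_c 3 l (by norm_num)))
  have hA : IsRat fun m => ∑ l ∈ range D, (q 1 l * c 1 (l + m) + q 2 l * c 3 (l + m)) :=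
    IsRat.sum _ _ fun l _ => hAl l
  have hB : IsRat fun m => ∑ l ∈ range D, (q 0 l * a 0 (l + m) +
      (∑ i ∈ range l, 1 / (1 * (m : ℚ) + (i + 1))) *
        (q 1 l * c 1 (l + m) + q 2 l * c 3 (l + m))) :=
    IsRat.sum _ _ fun l _ => ((IsRat.const _).mul (isRat_a0 l)).add
      ((IsRat.sum _ _ fun i _ => IsRat.frac one_pos (by positivity)).mul (hAl l))
  have hc0 : c0 = 0 := by
    by_contra hc
    refine not_isRat_harmonic (IsRat.solve ((IsRat.const c0).mul hA)
      (((IsRat.const c0).mul hB).add ((IsRat.const c1).mul hA))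
      (fun h0 => hA0 (h0.mono fun m hm => (mul_eq_zero.1 hm).resolve_left hc))
      (h.mono fun m hm => ?_))
    have h1 : ∑ i, ∑ l ∈ range D, q i l * a i (l + m) =
        harmonic m * ∑ l ∈ range D, (q 1 l * c 1 (l + m) + q 2 l * c 3 (l + m)) +
        ∑ l ∈ range D, (q 0 l * a 0 (l + m) +
          (∑ i ∈ range l, 1 / (1 * (m : ℚ) + (i + 1))) *
            (q 1 l * c 1 (l + m) + q 2 l * c 3 (l + m))) := by
      rw [Fin.sum_univ_three, mul_sum, ← sum_add_distrib, ← sum_add_distrib, ← sum_add_distrib]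
      refine sum_congr rfl fun l _ => ?_
      rw [a_one, a_two, harmonic_add]
      ring
    rw [h1] at hm
    linear_combination hm
  refine ⟨hc0, ?_⟩
  by_contra hc
  refine hA0 (h.mono fun m hm => ?_)
  rw [hc0, zero_mul, zero_add] at hm
  exact (mul_eq_zero.1 hm).resolve_left hc

end Pool.Agent.Lib.MP_6aa000_nt.NW
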