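import Pool.Agent.Lib.MP_6aa000_nt.NW.Rows

namespace Pool.Agent.Lib.MP_6aa000_nt.NW

open Finset Filter

/-- independent rows can be completed by unit rows -/
theorem complete_rows {κ : Type*} [Fintype κ] [DecidableEq κ] (n : ℕ) :
    ∀ {ρ : Type} [Fintype ρ] (v : ρ → κ → ℚ), LinearIndependent ℚ v →
      Fintype.card ρ + n = Fintype.card κ →
      ∃ s : Fin n → κ, LinearIndependent ℚ (Sum.elim v fun t => Pi.single (s t) (1 : ℚ)) := by
  induction n with
  | zero =>
    intro ρ _ v hv _
    refine ⟨Fin.elim0, ?_⟩
    rw [← linearIndependent_equiv (Equiv.sumEmpty ρ (Fin 0)).symm]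
    exact hv
  | succ n ih =>
    intro ρ _ v hv hc
    have hk : ∃ k : κ, (Pi.single k (1 : ℚ) : κ → ℚ) ∉ Submodule.span ℚ (Set.range v) := by
      by_contra hall
      have htop : Submodule.span ℚ (Set.range v) = ⊤ := by
        rw [eq_top_iff, ← (Pi.basisFun ℚ κ).span_eq, Submodule.span_le]
        rintro _ ⟨k, rfl⟩
        rw [Pi.basisFun_apply]
        by_contra hk
        exact hall ⟨k, hk⟩
      have h1 := finrank_span_eq_card hv
      rw [htop, finrank_top, Module.finrank_fintype_fun_eq_card] at h1
      omega
    obtain ⟨k, hk⟩ := hk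
    have h1 : LinearIndependent ℚ fun o : Option ρ =>
        (Option.casesOn' o (Pi.single k (1 : ℚ)) v : κ → ℚ) := hv.option hk
    obtain ⟨s, hs⟩ := ih _ h1 (by simp; omega)
    refine ⟨Fin.cons k s, ?_⟩
    let f : ρ ⊕ Fin (n + 1) → Option ρ ⊕ Fin n :=
      Sum.elim (fun r => Sum.inl (some r)) (Fin.cases (Sum.inl none) Sum.inr)
    have hf : Function.Injective f := by
      rintro (x | x) (y | y) hxy
      · simpa [f] using hxy
      · induction y using Fin.cases <;> simp [f] at hxy
      · induction x using Fin.cases <;> simp [f] at hxy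
      · induction x using Fin.cases <;> induction y using Fin.cases <;> simp_all [f]
    convert hs.comp f hf using 1
    funext x
    rcases x with x | x
    · simp [f]
    · induction x using Fin.cases <;> simp [f]

theorem exists_det_ne (D : ℕ) : ∃ s : Fin 20 → ℕ, (A D s).det ≠ 0 := by
  have hv : LinearIndependent ℚ fun (x : Fin 3 × Fin D) (k : I D) => a x.1 (x.2 + col k) := by
    rw [Fintype.linearIndependent_iff]
    intro g hg x
    have := rows_indep D (fun i l => if h : l < D then g (i, ⟨l, h⟩) else 0) (fun m hm => by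
      obtain ⟨k, rfl⟩ := col_surj hm
      have h1 := congrFun hg k
      rw [Finset.sum_apply, Fintype.sum_prod_type] at h1
      refine Eq.trans (sum_congr rfl fun i _ => ?_) h1
      rw [sum_range]
      simp) x.1 x.2 x.2.2
    simpa using this
  obtain ⟨s, hs⟩ := complete_rows 20 _ hv (by simp)
  refine ⟨fun t => col (s t), ?_⟩
  have h1 : LinearIndependent ℚ (A D fun t => col (s t)).row := by
    convert hs using 1
    funext r k
    rcases r with x | t
    · rfl
    · simp [Matrix.row, Pi.single_apply, col_inj.eq_iff]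
  rw [Matrix.linearIndependent_rows_iff_isUnit, Matrix.isUnit_iff_isUnit_det] at h1
  exact h1.ne_zero

end Pool.Agent.Lib.MP_6aa000_nt.NW
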