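import Pool.Agent.Lib.MP_6aa000_nt.NW.Defs

namespace Pool.Agent.Lib.MP_6aa000_nt.NW

open Finset Filter

theorem norm_prod (p : ℕ) [Fact p.Prime] {ι : Type*} (S : Finset ι) (f : ι → ℚ) :
    padicNorm p (∏ i ∈ S, f i) = ∏ i ∈ S, padicNorm p (f i) := by
  classical
  induction S using Finset.induction_on with
  | empty => simp
  | insert i S hi ih => rw [prod_insert hi, prod_insert hi, padicNorm.mul, ih]

theorem norm_pow (p : ℕ) [Fact p.Prime] (x : ℚ) (n : ℕ) :
    padicNorm p (x ^ n) = padicNorm p x ^ n := by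
  induction n with
  | zero => simp
  | succ n ih => rw [pow_succ, padicNorm.mul, ih, pow_succ]

theorem norm_zpow (p : ℕ) [Fact p.Prime] (x : ℚ) (n : ℤ) :
    padicNorm p (x ^ n) = padicNorm p x ^ n := by
  obtain ⟨k, rfl | rfl⟩ := Int.eq_nat_or_neg n
  · simp [norm_pow]
  · rw [zpow_neg, zpow_neg, zpow_natCast, zpow_natCast, ← one_div, padicNorm.div, norm_pow]
    simp

/-- a nonzero rational that is integral at the large primes satisfies the product inequality -/
theorem prod_formula (x : ℚ) (hx : x ≠ 0) (B : ℕ)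
    (h : ∀ p : ℕ, p.Prime → B ≤ p → padicNorm p x ≤ 1) :
    1 ≤ |x| * ∏ p ∈ (range B).filter Nat.Prime, padicNorm p x := by
  classical
  set S := (range B).filter Nat.Prime with hS
  set y : ℚ := x * ∏ p ∈ S, padicNorm p x with hy
  have hpos : ∀ p ∈ S, 0 < padicNorm p x := by
    intro p hp
    have : Fact p.Prime := ⟨(mem_filter.1 hp).2⟩
    exact lt_of_le_of_ne (padicNorm.nonneg _) (Ne.symm (padicNorm.nonzero hx))
  have hP : 0 < ∏ p ∈ S, padicNorm p x := prod_pos hpos
  have hy0 : y ≠ 0 := mul_ne_zero hx hP.ne'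
  have hother : ∀ q : ℕ, q.Prime → ∀ p : ℕ, p.Prime → p ≠ q →
      padicNorm q (padicNorm p x) = 1 := by
    intro q hq p hp hne
    have : Fact q.Prime := ⟨hq⟩
    have : Fact p.Prime := ⟨hp⟩
    have h1 : padicNorm q (p : ℚ) = 1 := padicNorm.padicNorm_of_prime_of_ne hne.symm
    rw [padicNorm.eq_zpow_of_nonzero (p := p) hx, norm_zpow, h1, one_zpow]
  have hnorm : ∀ q : ℕ, q.Prime → padicNorm q y ≤ 1 := by
    intro q hq
    have : Fact q.Prime := ⟨hq⟩
    rw [hy, padicNorm.mul, norm_prod]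
    by_cases hqS : q ∈ S
    · rw [← mul_prod_erase S _ hqS, prod_eq_one, mul_one]
      · have hq0 : (q : ℚ) ≠ 0 := by exact_mod_cast hq.ne_zero
        rw [padicNorm.eq_zpow_of_nonzero (p := q) hx, norm_zpow, padicNorm.padicNorm_p_of_prime,
          inv_zpow, mul_inv_cancel₀ (zpow_ne_zero _ hq0)]
      · intro p hp
        exact hother q hq p (mem_filter.1 (mem_of_mem_erase hp)).2 (ne_of_mem_erase hp)
    · rw [prod_eq_one, mul_one]
      · refine h q hq ?_
        by_contra hlt
        exact hqS (mem_filter.2 ⟨mem_range.2 (not_le.1 hlt), hq⟩)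
      · intro p hp
        exact hother q hq p (mem_filter.1 hp).2 (fun hpq => hqS (hpq ▸ hp))
  have hden : y.den = 1 := by
    by_contra hd
    obtain ⟨q, hq, hqd⟩ := Nat.exists_prime_and_dvd hd
    have : Fact q.Prime := ⟨hq⟩
    have h1 := hnorm q hq
    have h2 : padicNorm q (y.den : ℚ) < 1 := (padicNorm.nat_lt_one_iff _).2 hqd
    have h3 : padicNorm q (y.num : ℚ) = 1 := by
      refine (padicNorm.int_eq_one_iff _).2 fun hn => ?_
      have h4 : q ∣ y.num.natAbs := Int.natCast_dvd.1 hn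
      have := Nat.dvd_gcd h4 hqd
      rw [y.reduced] at this
      exact hq.one_lt.ne' (Nat.dvd_one.1 this)
    have h5 : padicNorm q (y.num : ℚ) = padicNorm q y * padicNorm q (y.den : ℚ) := by
      rw [← padicNorm.mul, Rat.mul_den_eq_num]
    have h6 := padicNorm.nonneg (p := q) (y.den : ℚ)
    have h7 := padicNorm.nonneg (p := q) y
    nlinarith
  have h1 : (y.num : ℚ) = y := (Rat.den_eq_one_iff y).1 hden
  have h2 : y.num ≠ 0 := Rat.num_ne_zero.2 hy0
  have h3 : (1 : ℚ) ≤ |(y.num : ℚ)| := by exact_mod_cast Int.one_le_abs h2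
  rw [h1, hy, abs_mul, abs_of_pos hP] at h3
  exact h3

end Pool.Agent.Lib.MP_6aa000_nt.NW
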