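import Pool.Agent.Lib.MP_6aa000_nt.NW.Defs

namespace Pool.Agent.Lib.MP_6aa000_nt.NW

open Finset Filter

theorem wr_dd_mul (f g : PowerSeries ℚ) : dd (f * g) = f * dd g + g * dd f := by
  simp only [dd, Derivation.leibniz, smul_eq_mul]
  ring

theorem wr_dd_sum {ι : Type*} (s : Finset ι) (f : ι → PowerSeries ℚ) :
    dd (∑ i ∈ s, f i) = ∑ i ∈ s, dd (f i) := by
  simp only [dd, map_sum, Finset.mul_sum]

theorem wr_dd_zero : dd 0 = 0 := by simp [dd]

theorem wr_coeff_theta (f : PowerSeries ℚ) (m : ℕ) :
    PowerSeries.coeff m (PowerSeries.X * PowerSeries.derivative ℚ f) =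
      m * PowerSeries.coeff m f := by
  cases m with
  | zero => simp
  | succ m =>
    rw [PowerSeries.coeff_succ_X_mul, PowerSeries.coeff_derivative]
    push_cast
    ring

theorem wr_coeff_mul_low {f h : PowerSeries ℚ} {o m : ℕ}
    (hf : ∀ i < o, PowerSeries.coeff i f = 0) (hh : ∀ j < m, PowerSeries.coeff j h = 0) :
    PowerSeries.coeff (o + m) (f * h) = PowerSeries.coeff o f * PowerSeries.coeff m h := by
  rw [PowerSeries.coeff_mul, Finset.sum_eq_single (o, m)]
  · rintro ⟨i, j⟩ hij hne
    rw [Finset.HasAntidiagonal.mem_antidiagonal] at hij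
    by_cases hi : i < o
    · rw [hf i hi, zero_mul]
    · have hj : j < m := by
        by_contra hj
        exact hne (Prod.ext (by simp only at hij ⊢; omega) (by simp only at hij ⊢; omega))
      rw [hh j hj, mul_zero]
  · intro h
    exact absurd (by simp) h

theorem wr_one_sub_ne : (1 - PowerSeries.X ^ 4 : PowerSeries ℚ) ≠ 0 := by
  intro h
  have := congrArg PowerSeries.constantCoeff h
  simp at this

theorem wr_const {f g : PowerSeries ℚ} (hf : f ≠ 0) (h : f * dd g = g * dd f) :
    ∃ r : ℚ, g = PowerSeries.C r * f := by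
  classical
  have h1 : f * (PowerSeries.X * PowerSeries.derivative ℚ g) =
      g * (PowerSeries.X * PowerSeries.derivative ℚ f) := by
    apply mul_left_cancel₀ wr_one_sub_ne
    simp only [dd] at h
    linear_combination h
  have hex : ∃ i, PowerSeries.coeff i f ≠ 0 := by
    by_contra hn
    push Not at hn
    exact hf (PowerSeries.ext fun i => by rw [hn i, map_zero])
  have ho := Nat.find_spec hex
  have hlow : ∀ i < Nat.find hex, PowerSeries.coeff i f = 0 := fun i hi =>
    not_not.1 (Nat.find_min hex hi)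
  generalize Nat.find hex = o at ho hlow
  refine ⟨PowerSeries.coeff o g / PowerSeries.coeff o f, ?_⟩
  set r := PowerSeries.coeff o g / PowerSeries.coeff o f with hr
  set u := g - PowerSeries.C r * f with hu
  have h2 : f * (PowerSeries.X * PowerSeries.derivative ℚ u) =
      (PowerSeries.X * PowerSeries.derivative ℚ f) * u := by
    simp only [hu, map_sub, Derivation.leibniz, smul_eq_mul, PowerSeries.derivative_C]
    linear_combination h1
  have h3 : PowerSeries.coeff o u = 0 := by
    rw [hu, map_sub, PowerSeries.coeff_C_mul, hr, div_mul_cancel₀ _ ho, sub_self]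
  have h4 : ∀ m, PowerSeries.coeff m u = 0 := by
    intro m
    induction m using Nat.strong_induction_on with
    | _ m ih =>
      have h5 := congrArg (PowerSeries.coeff (o + m)) h2
      rw [wr_coeff_mul_low hlow (fun j hj => by rw [wr_coeff_theta, ih j hj, mul_zero]),
        wr_coeff_mul_low (fun i hi => by rw [wr_coeff_theta, hlow i hi, mul_zero]) ih,
        wr_coeff_theta, wr_coeff_theta] at h5
      by_cases hm : m = o
      · rw [hm, h3]
      · have h6 : ((m : ℚ) - o) * (PowerSeries.coeff o f * PowerSeries.coeff m u) = 0 := by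
          linear_combination h5
        have h7 : (m : ℚ) - o ≠ 0 := sub_ne_zero.2 (by exact_mod_cast hm)
        exact (mul_eq_zero.1 ((mul_eq_zero.1 h6).resolve_left h7)).resolve_left ho
  exact sub_eq_zero.1 (PowerSeries.ext fun m => by rw [map_zero]; exact h4 m)

/-- linearly independent power series have a nonzero Wronskian for the derivation dd -/
theorem wronskian_ne_zero (n : ℕ) (y : Fin n → PowerSeries ℚ) (hy : LinearIndependent ℚ y) :
    (Matrix.of fun (i k : Fin n) => dd^[k] (y i)).det ≠ 0 := by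
  induction n with
  | zero => simp
  | succ n ih =>
    intro h0
    obtain ⟨v, hv, hv0⟩ := Matrix.exists_vecMul_eq_zero_iff.2 h0
    have hk : ∀ k : Fin (n + 1), ∑ i, v i * dd^[k] (y i) = 0 := fun k => by
      simpa [Matrix.vecMul, dotProduct] using congrFun hv0 k
    obtain ⟨i0, hi0⟩ := Function.ne_iff.1 hv
    have hi0' : v i0 ≠ 0 := hi0
    have h1 : ∀ k : Fin n, ∑ i, dd (v i) * dd^[k] (y i) = 0 := fun k => by
      have h2 := congrArg dd (hk k.castSucc)
      have h3 := hk k.succ
      rw [wr_dd_sum, wr_dd_zero] at h2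
      simp only [wr_dd_mul, Fin.val_castSucc, Finset.sum_add_distrib] at h2
      simp only [Fin.val_succ, Function.iterate_succ_apply'] at h3
      rw [h3, zero_add] at h2
      simpa only [mul_comm] using h2
    have h4 : ∀ k : Fin n, ∑ i, (v i0 * dd (v i) - v i * dd (v i0)) * dd^[k] (y i) = 0 :=
      fun k => by
        have h5 := hk k.castSucc
        simp only [Fin.val_castSucc] at h5
        have h6 : ∑ i, (v i0 * dd (v i) - v i * dd (v i0)) * dd^[k] (y i) =
            v i0 * ∑ i, dd (v i) * dd^[k] (y i) - dd (v i0) * ∑ i, v i * dd^[k] (y i) := by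
          rw [Finset.mul_sum, Finset.mul_sum, ← Finset.sum_sub_distrib]
          exact Finset.sum_congr rfl fun i _ => by ring
        rw [h6, h1 k, h5, mul_zero, mul_zero, sub_zero]
    have h7 := ih (fun j => y (i0.succAbove j)) (hy.comp _ Fin.succAbove_right_injective)
    have h8 := Matrix.eq_zero_of_vecMul_eq_zero h7
      (v := fun j => v i0 * dd (v (i0.succAbove j)) - v (i0.succAbove j) * dd (v i0)) (by
        funext k
        have h9 := h4 k
        rw [Fin.sum_univ_succAbove _ i0, sub_self, zero_mul, zero_add] at h9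
        simpa [Matrix.vecMul, dotProduct] using h9)
    have h10 : ∀ i, ∃ r : ℚ, v i = PowerSeries.C r * v i0 := by
      intro i
      refine wr_const hi0' ?_
      induction i using Fin.succAboveCases i0 with
      | x => rfl
      | p j => exact sub_eq_zero.1 (congrFun h8 j)
    choose r hr using h10
    have h11 : v i0 * ∑ i, r i • y i = 0 := by
      rw [← hk 0, Finset.mul_sum]
      refine Finset.sum_congr rfl fun i _ => ?_
      rw [PowerSeries.smul_eq_C_mul]
      conv_rhs => rw [hr i]
      simp only [Fin.val_zero, Function.iterate_zero, id]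
      ring
    have h12 := Fintype.linearIndependent_iff.1 hy r ((mul_eq_zero.1 h11).resolve_left hi0') i0
    apply hi0'
    rw [hr i0, h12, map_zero, zero_mul]

/-- the polynomial coordinates of the iterated derivatives -/
noncomputable def wrQ {n : ℕ} (N : Matrix (Fin n) (Fin n) (Polynomial ℚ))
    (P : Fin n → Polynomial ℚ) : ℕ → Fin n → Polynomial ℚ
  | 0 => P
  | k + 1 => fun j => (1 - Polynomial.X ^ 4) *
      (Polynomial.X * Polynomial.derivative (wrQ N P k j)) + ∑ b, N j b * wrQ N P k b

theorem wr_deg_theta (p : Polynomial ℚ) :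
    (Polynomial.X * Polynomial.derivative p).natDegree ≤ p.natDegree := by
  by_cases h : p.natDegree = 0
  · rw [Polynomial.derivative_of_natDegree_zero h]
    simp
  · have h1 := Polynomial.natDegree_derivative_lt h
    have h2 := Polynomial.natDegree_mul_le (p := (Polynomial.X : Polynomial ℚ))
      (q := Polynomial.derivative p)
    rw [Polynomial.natDegree_X] at h2
    omega

theorem wr_deg_Q {n d : ℕ} (N : Matrix (Fin n) (Fin n) (Polynomial ℚ))
    (hN : ∀ i j, (N i j).natDegree ≤ 4) (P : Fin n → Polynomial ℚ)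
    (hP : ∀ j, (P j).natDegree ≤ d) (k : ℕ) : ∀ j, (wrQ N P k j).natDegree ≤ d + 4 * k := by
  induction k with
  | zero => exact hP
  | succ k ih =>
    intro j
    refine Polynomial.natDegree_add_le_of_degree_le ?_ ?_
    · have h1 : (1 - Polynomial.X ^ 4 : Polynomial ℚ).natDegree ≤ 4 := by compute_degree
      have h2 := (wr_deg_theta (wrQ N P k j)).trans (ih j)
      exact Polynomial.natDegree_mul_le.trans (by omega)
    · refine Polynomial.natDegree_sum_le_of_forall_le _ _ fun b _ => ?_
      have h1 := hN j b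
      have h2 := ih b
      exact Polynomial.natDegree_mul_le.trans (by omega)

theorem wr_iter_eq {n : ℕ} (Y : Matrix (Fin n) (Fin n) (PowerSeries ℚ))
    (N : Matrix (Fin n) (Fin n) (Polynomial ℚ))
    (hd : ∀ i j, dd (Y i j) = ∑ k, Y i k * (N k j : PowerSeries ℚ))
    (P : Fin n → Polynomial ℚ) (i : Fin n) (k : ℕ) :
    dd^[k] (∑ j, Y i j * (P j : PowerSeries ℚ)) =
      ∑ j, Y i j * (wrQ N P k j : PowerSeries ℚ) := by
  induction k with
  | zero => rfl
  | succ k ih =>
    have h1 : ∀ j, ((wrQ N P (k + 1) j : Polynomial ℚ) : PowerSeries ℚ) =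
        dd (wrQ N P k j : PowerSeries ℚ) +
          ∑ b, (N j b : PowerSeries ℚ) * (wrQ N P k b : PowerSeries ℚ) := fun j => by
      have h2 := map_sum (Polynomial.coeToPowerSeries.ringHom (R := ℚ))
        (fun b => N j b * wrQ N P k b) Finset.univ
      simp only [Polynomial.coeToPowerSeries.ringHom_apply, Polynomial.coe_mul] at h2
      simp only [wrQ, dd, PowerSeries.derivative_coe, Polynomial.coe_add, Polynomial.coe_mul,
        Polynomial.coe_sub, Polynomial.coe_one, Polynomial.coe_pow, Polynomial.coe_X, h2]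
    rw [Function.iterate_succ_apply', ih, wr_dd_sum]
    simp only [wr_dd_mul, hd, h1, mul_add, Finset.sum_add_distrib, Finset.mul_sum]
    congr 1
    rw [Finset.sum_comm]
    exact Finset.sum_congr rfl fun a _ => Finset.sum_congr rfl fun b _ => by ring

theorem wr_dvd_iter {T : ℕ} {f : PowerSeries ℚ} (h : PowerSeries.X ^ T ∣ f) (k : ℕ) :
    PowerSeries.X ^ T ∣ dd^[k] f := by
  induction k with
  | zero => exact h
  | succ k ih =>
    rw [Function.iterate_succ_apply']
    refine Dvd.dvd.mul_left (PowerSeries.X_pow_dvd_iff.2 fun m hm => ?_) _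
    rw [wr_coeff_theta, PowerSeries.X_pow_dvd_iff.1 ih m hm, mul_zero]

/-- zero estimate for a unimodular system -/
theorem zero_est (n d T : ℕ) (Y : Matrix (Fin n) (Fin n) (PowerSeries ℚ)) (hY : Y.det = 1)
    (N : Matrix (Fin n) (Fin n) (Polynomial ℚ)) (hN : ∀ i j, (N i j).natDegree ≤ 4)
    (hd : ∀ i j, dd (Y i j) = ∑ k, Y i k * (N k j : PowerSeries ℚ))
    (P : Fin n → Polynomial ℚ) (hP : ∀ j, (P j).natDegree ≤ d)
    (hy : LinearIndependent ℚ fun i => ∑ j, Y i j * (P j : PowerSeries ℚ))
    (i0 : Fin n) (hT : PowerSeries.X ^ T ∣ ∑ j, Y i0 j * (P j : PowerSeries ℚ)) :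
    T ≤ n * (d + 4 * n) := by
  have h1 := wronskian_ne_zero n _ hy
  set Q : Matrix (Fin n) (Fin n) (Polynomial ℚ) := Matrix.of fun j k => wrQ N P k j with hQ
  set W : Matrix (Fin n) (Fin n) (PowerSeries ℚ) :=
    Matrix.of fun (i k : Fin n) => dd^[k] (∑ j, Y i j * (P j : PowerSeries ℚ)) with hW
  have h2 : W = Y * (Polynomial.coeToPowerSeries.ringHom (R := ℚ)).mapMatrix Q := by
    ext1 i k
    rw [hW, Matrix.of_apply, wr_iter_eq Y N hd, Matrix.mul_apply]
    rfl
  have h3 : W.det = (Q.det : PowerSeries ℚ) := by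
    rw [h2, Matrix.det_mul, hY, one_mul, ← RingHom.map_det]
    rfl
  have h4 : PowerSeries.X ^ T ∣ W.det := by
    rw [Matrix.det_apply']
    refine Finset.dvd_sum fun σ _ => Dvd.dvd.mul_left ?_ _
    refine dvd_trans ?_ (Finset.dvd_prod_of_mem _ (Finset.mem_univ (σ.symm i0)))
    rw [Equiv.apply_symm_apply]
    exact wr_dvd_iter hT _
  have h5 : Q.det.natDegree ≤ n * (d + 4 * n) := by
    rw [Matrix.det_apply']
    refine Polynomial.natDegree_sum_le_of_forall_le _ _ fun σ _ => ?_
    refine Polynomial.natDegree_mul_le.trans ?_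
    rw [Polynomial.natDegree_intCast, zero_add]
    refine (Polynomial.natDegree_prod_le _ _).trans ?_
    refine (Finset.sum_le_card_nsmul _ _ (d + 4 * n) fun k _ => ?_).trans (by simp)
    have h6 := wr_deg_Q N hN P hP k (σ k)
    have h7 := k.2
    exact h6.trans (by omega)
  rw [h3] at h1 h4
  have h8 : Q.det ≠ 0 := fun h => h1 (by rw [h, Polynomial.coe_zero])
  refine le_trans ?_ h5
  by_contra h9
  have h10 := PowerSeries.X_pow_dvd_iff.1 h4 _ (not_le.1 h9)
  rw [Polynomial.coeff_coe] at h10
  exact h8 (Polynomial.leadingCoeff_eq_zero.1 h10)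

end Pool.Agent.Lib.MP_6aa000_nt.NW
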