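import Pool.Agent.Lib.MP_6aa000_nt.NW.RowsA
import Pool.Agent.Lib.MP_6aa000_nt.NW.Wr
import Pool.Agent.Lib.MP_6aa000_nt.NW.Ind

namespace Pool.Agent.Lib.MP_6aa000_nt.NW

open Finset Filter PowerSeries

/-- the combination without its polynomial part -/
noncomputable def F1 (D : ℕ) (q : Fin 3 → ℕ → ℚ) : ℚ⟦X⟧ :=
  LL * (Bp D 4 (q 0) : ℚ⟦X⟧) + GG 1 * (Bp D 1 (q 1) : ℚ⟦X⟧) + GG 3 * (Bp D 3 (q 2) : ℚ⟦X⟧)

/-- the polynomial part -/
noncomputable def A0 (D : ℕ) (q : Fin 3 → ℕ → ℚ) : Polynomial ℚ := -trunc (4 * D) (F1 D q)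

/-- the second solution -/
noncomputable def Y1 (D : ℕ) (q : Fin 3 → ℕ → ℚ) : ℚ⟦X⟧ :=
  (Bp D 4 (q 0) : ℚ⟦X⟧) + PH 1 * (Bp D 1 (q 1) : ℚ⟦X⟧) + PH 3 * (Bp D 3 (q 2) : ℚ⟦X⟧)

theorem coe_four : (4 : ℚ⟦X⟧) = ((4 : Polynomial ℚ) : ℚ⟦X⟧) :=
  (map_ofNat (Polynomial.coeToPowerSeries.ringHom (R := ℚ)) 4).symm

theorem natDegree_A0 (D : ℕ) (q : Fin 3 → ℕ → ℚ) : (A0 D q).natDegree ≤ 4 * D := by
  rw [A0, Polynomial.natDegree_neg]
  exact Polynomial.natDegree_le_of_degree_le (degree_trunc_lt _ _).le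

theorem coeff_F (D : ℕ) (q : Fin 3 → ℕ → ℚ) (m : ℕ) :
    coeff (4 * (D + m)) ((A0 D q : ℚ⟦X⟧) + F1 D q) =
      ∑ i, ∑ l ∈ range D, q i l * a i (l + m) := by
  rw [map_add, A0, Polynomial.coeff_coe, Polynomial.coeff_neg, coeff_trunc, if_neg (by omega), F1,
    map_add, map_add, coeff_LL_Bp, coeff_GG_Bp D 1 (Or.inl rfl), coeff_GG_Bp D 3 (Or.inr rfl),
    Fin.sum_univ_three]
  simp

theorem coeff_Y1 (D : ℕ) (q : Fin 3 → ℕ → ℚ) (m : ℕ) :
    coeff (4 * (D + m)) (Y1 D q) =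
      ∑ l ∈ range D, (q 1 l * c 1 (l + m) + q 2 l * c 3 (l + m)) := by
  rw [Y1, map_add, map_add, coeff_Bp_big D 4 (by omega) le_rfl, coeff_PH_Bp D 1 (Or.inl rfl),
    coeff_PH_Bp D 3 (Or.inr rfl), zero_add, sum_add_distrib]

theorem dvd_F (D : ℕ) (q : Fin 3 → ℕ → ℚ)
    (h : ∀ m < 3 * D + 20, ∑ i, ∑ l ∈ range D, q i l * a i (l + m) = 0) :
    X ^ (16 * D + 80) ∣ (A0 D q : ℚ⟦X⟧) + F1 D q := by
  rw [X_pow_dvd_iff]
  intro n hn
  by_cases h1 : n < 4 * D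
  · rw [map_add, A0, Polynomial.coeff_coe, Polynomial.coeff_neg, coeff_trunc, if_pos h1]
    ring
  · by_cases h2 : n % 4 = 0
    · obtain ⟨m, rfl⟩ : ∃ m, n = 4 * (D + m) := ⟨n / 4 - D, by omega⟩
      rw [coeff_F, h m (by omega)]
    · rw [map_add, A0, Polynomial.coeff_coe, Polynomial.coeff_neg, coeff_trunc, if_neg h1, F1,
        map_add, map_add, coeff_LL_off D _ n h2, coeff_GG_off D 1 _ n h2, coeff_GG_off D 3 _ n h2]
      simp

/-- a constant relation between the four solutions -/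
theorem rel4 (D : ℕ) (q : Fin 3 → ℕ → ℚ) (hq : ∃ l < D, q 1 l ≠ 0 ∨ q 2 l ≠ 0) (g0 g1 g2 g3 : ℚ)
    (h : g0 • ((A0 D q : ℚ⟦X⟧) + F1 D q) + g1 • Y1 D q + g2 • (Bp D 1 (q 1) : ℚ⟦X⟧) +
      g3 • (Bp D 3 (q 2) : ℚ⟦X⟧) = 0) :
    g0 = 0 ∧ g1 = 0 ∧ (∀ l < D, g2 * q 1 l = 0) ∧ ∀ l < D, g3 * q 2 l = 0 := by
  obtain ⟨h0, h1⟩ := ind D q g0 g1 hq (Eventually.of_forall fun m => by
    have := congrArg (coeff (4 * (D + m))) h
    simp only [map_add (coeff _) _ (_ • _), map_smul, coeff_F, coeff_Y1,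
      coeff_Bp_big D 1 le_rfl (by omega), coeff_Bp_big D 3 (by omega) (by omega), smul_eq_mul,
      map_zero] at this
    linarith)
  subst h0 h1
  rw [zero_smul, zero_smul, zero_add, zero_add] at h
  refine ⟨rfl, rfl, fun l hl => ?_, fun l hl => ?_⟩
  · have := congrArg (coeff (4 * (D - l) - 1)) h
    rw [map_add, map_smul, map_smul, coeff_Bp_self D 1 (by omega) _ l hl,
      coeff_Bp_other D 3 (by omega) _ _ (by omega)] at this
    simpa using this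
  · have := congrArg (coeff (4 * (D - l) - 3)) h
    rw [map_add, map_smul, map_smul, coeff_Bp_self D 3 (by omega) _ l hl,
      coeff_Bp_other D 1 (by omega) _ _ (by omega)] at this
    simpa using this

theorem case4 (D : ℕ) (q : Fin 3 → ℕ → ℚ) (h1 : ∃ l < D, q 1 l ≠ 0) (h2 : ∃ l < D, q 2 l ≠ 0)
    (hT : X ^ (16 * D + 80) ∣ (A0 D q : ℚ⟦X⟧) + F1 D q) : False := by
  obtain ⟨l1, hl1, h1⟩ := h1
  obtain ⟨l2, hl2, h2⟩ := h2
  have := zero_est 4 (4 * D) (16 * D + 80)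
    !![1, LL, GG 1, GG 3; 0, 1, PH 1, PH 3; 0, 0, 1, 0; 0, 0, 0, 1]
    (by simp [Matrix.det_succ_column_zero, Fin.sum_univ_succ])
    !![0, 4 * Polynomial.X ^ 4, 0, 0; 0, 0, Polynomial.X ^ 1, Polynomial.X ^ 3; 0, 0, 0, 0;
      0, 0, 0, 0]
    (by
      intro i j
      fin_cases i <;> fin_cases j <;> simp)
    (by
      intro i j
      fin_cases i <;> fin_cases j <;>
        simp [Fin.sum_univ_four, dd_one, dd_zero, dd_LL, dd_GG, dd_PH]
      exact coe_four)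
    ![A0 D q, Bp D 4 (q 0), Bp D 1 (q 1), Bp D 3 (q 2)]
    (by
      intro j
      fin_cases j <;> simp [natDegree_A0, natDegree_Bp])
    (by
      rw [Fintype.linearIndependent_iff]
      intro g hg
      obtain ⟨k0, k1, k2, k3⟩ := rel4 D q ⟨l1, hl1, Or.inl h1⟩ (g 0) (g 1) (g 2) (g 3) (by
        rw [← hg]
        simp [Fin.sum_univ_four, F1, Y1, add_assoc])
      intro i
      fin_cases i
      · exact k0
      · exact k1
      · exact (mul_eq_zero.1 (k2 l1 hl1)).resolve_right h1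
      · exact (mul_eq_zero.1 (k3 l2 hl2)).resolve_right h2)
    0 (by simpa [Fin.sum_univ_four, F1, add_assoc] using hT)
  omega

theorem case3 (D j : ℕ) (hj : j = 1 ∨ j = 3) (P0 P1 B : Polynomial ℚ) (h0 : P0.natDegree ≤ 4 * D)
    (h1 : P1.natDegree ≤ 4 * D) (h2 : B.natDegree ≤ 4 * D)
    (hi : ∀ g0 g1 g2 : ℚ, g0 • ((P0 : ℚ⟦X⟧) + (LL * (P1 : ℚ⟦X⟧) + GG j * (B : ℚ⟦X⟧))) +
      g1 • ((P1 : ℚ⟦X⟧) + PH j * (B : ℚ⟦X⟧)) + g2 • (B : ℚ⟦X⟧) = 0 → g0 = 0 ∧ g1 = 0 ∧ g2 = 0)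
    (hT : X ^ (16 * D + 80) ∣ (P0 : ℚ⟦X⟧) + (LL * (P1 : ℚ⟦X⟧) + GG j * (B : ℚ⟦X⟧))) : False := by
  have := zero_est 3 (4 * D) (16 * D + 80)
    !![1, LL, GG j; 0, 1, PH j; 0, 0, 1]
    (by simp [Matrix.det_succ_column_zero, Fin.sum_univ_succ])
    !![0, 4 * Polynomial.X ^ 4, 0; 0, 0, Polynomial.X ^ j; 0, 0, 0]
    (by
      intro i k
      fin_cases i <;> fin_cases k <;> simp
      omega)
    (by
      intro i k
      fin_cases i <;> fin_cases k <;>
        simp [Fin.sum_univ_three, dd_one, dd_zero, dd_LL, dd_GG j hj, dd_PH j hj]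
      exact coe_four)
    ![P0, P1, B]
    (by
      intro k
      fin_cases k <;> simp [h0, h1, h2])
    (by
      rw [Fintype.linearIndependent_iff]
      intro g hg
      obtain ⟨k0, k1, k2⟩ := hi (g 0) (g 1) (g 2) (by
        rw [← hg]
        simp [Fin.sum_univ_three, add_assoc])
      intro i
      fin_cases i
      · exact k0
      · exact k1
      · exact k2)
    0 (by simpa [Fin.sum_univ_three, add_assoc] using hT)
  omega

theorem case2 (D : ℕ) (P0 P1 : Polynomial ℚ) (h0 : P0.natDegree ≤ 4 * D)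
    (h1 : P1.natDegree ≤ 4 * D)
    (hi : ∀ g0 g1 : ℚ, g0 • ((P0 : ℚ⟦X⟧) + LL * (P1 : ℚ⟦X⟧)) + g1 • (P1 : ℚ⟦X⟧) = 0 →
      g0 = 0 ∧ g1 = 0)
    (hT : X ^ (16 * D + 80) ∣ (P0 : ℚ⟦X⟧) + LL * (P1 : ℚ⟦X⟧)) : False := by
  have := zero_est 2 (4 * D) (16 * D + 80) !![1, LL; 0, 1] (by simp)
    !![0, 4 * Polynomial.X ^ 4; 0, 0]
    (by
      intro i k
      fin_cases i <;> fin_cases k <;> simp)
    (by
      intro i k
      fin_cases i <;> fin_cases k <;> simp [Fin.sum_univ_two, dd_one, dd_zero, dd_LL]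
      exact coe_four)
    ![P0, P1]
    (by
      intro k
      fin_cases k <;> simp [h0, h1])
    (by
      rw [Fintype.linearIndependent_iff]
      intro g hg
      obtain ⟨k0, k1⟩ := hi (g 0) (g 1) (by
        rw [← hg]
        simp [Fin.sum_univ_two])
      intro i
      fin_cases i
      · exact k0
      · exact k1)
    0 (by simpa [Fin.sum_univ_two] using hT)
  omega

/-- the 3D rows are independent on the first 3D+20 columns -/
theorem rows_indep (D : ℕ) (q : Fin 3 → ℕ → ℚ)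
    (h : ∀ m < 3 * D + 20, ∑ i, ∑ l ∈ range D, q i l * a i (l + m) = 0) :
    ∀ i, ∀ l < D, q i l = 0 := by
  have hT := dvd_F D q h
  by_cases h1 : ∃ l < D, q 1 l ≠ 0
  · exfalso
    by_cases h2 : ∃ l < D, q 2 l ≠ 0
    · exact case4 D q h1 h2 hT
    · have hB : Bp D 3 (q 2) = 0 := Bp_zero D 3 _ (by simpa using h2)
      obtain ⟨l, hl, h1⟩ := h1
      refine case3 D 1 (Or.inl rfl) (A0 D q) (Bp D 4 (q 0)) (Bp D 1 (q 1)) (natDegree_A0 D q)
        (natDegree_Bp _ _ _) (natDegree_Bp _ _ _) (fun g0 g1 g2 hg => ?_)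
        (by simpa [F1, hB] using hT)
      obtain ⟨k0, k1, k2, _⟩ := rel4 D q ⟨l, hl, Or.inl h1⟩ g0 g1 g2 0 (by
        rw [← hg]
        simp [F1, Y1, hB])
      exact ⟨k0, k1, (mul_eq_zero.1 (k2 l hl)).resolve_right h1⟩
  · have hB1 : Bp D 1 (q 1) = 0 := Bp_zero D 1 _ (by simpa using h1)
    by_cases h2 : ∃ l < D, q 2 l ≠ 0
    · exfalso
      obtain ⟨l, hl, h2⟩ := h2
      refine case3 D 3 (Or.inr rfl) (A0 D q) (Bp D 4 (q 0)) (Bp D 3 (q 2)) (natDegree_A0 D q)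
        (natDegree_Bp _ _ _) (natDegree_Bp _ _ _) (fun g0 g1 g2 hg => ?_)
        (by simpa [F1, hB1] using hT)
      obtain ⟨k0, k1, _, k3⟩ := rel4 D q ⟨l, hl, Or.inr h2⟩ g0 g1 0 g2 (by
        rw [← hg]
        simp [F1, Y1, hB1])
      exact ⟨k0, k1, (mul_eq_zero.1 (k3 l hl)).resolve_right h2⟩
    · have hB3 : Bp D 3 (q 2) = 0 := Bp_zero D 3 _ (by simpa using h2)
      have h1' : ∀ l < D, q 1 l = 0 := by simpa using h1
      have h2' : ∀ l < D, q 2 l = 0 := by simpa using h2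
      have h0 : ∀ l < D, q 0 l = 0 := by
        by_contra h0
        obtain ⟨l, hl, h0⟩ : ∃ l < D, q 0 l ≠ 0 := by simpa using h0
        refine case2 D (A0 D q) (Bp D 4 (q 0)) (natDegree_A0 D q) (natDegree_Bp _ _ _)
          (fun g0 g1 hg => ?_) (by simpa [F1, hB1, hB3] using hT)
        have k0 : g0 = 0 := by
          have := ind0 D (fun l => g0 * q 0 l) (Eventually.of_forall fun m => by
            have h3 := congrArg (coeff (4 * (D + m))) hg
            rw [map_add, map_smul, map_smul, coeff_Bp_big D 4 (by omega) le_rfl, map_add,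
              coeff_LL_Bp, A0, Polynomial.coeff_coe, Polynomial.coeff_neg, coeff_trunc,
              if_neg (by omega)] at h3
            simp only [neg_zero, zero_add, smul_eq_mul, mul_zero, add_zero, map_zero,
              mul_sum] at h3
            simpa only [mul_assoc] using h3) l hl
          exact (mul_eq_zero.1 this).resolve_right h0
        subst k0
        rw [zero_smul, zero_add] at hg
        have := congrArg (coeff (4 * (D - l) - 4)) hg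
        rw [map_smul, coeff_Bp_self D 4 le_rfl _ l hl] at this
        exact ⟨rfl, (mul_eq_zero.1 this).resolve_right h0⟩
      intro i
      fin_cases i
      · exact h0
      · exact h1'
      · exact h2'

end Pool.Agent.Lib.MP_6aa000_nt.NW
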