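import Pool.Agent.Lib.MP_6aa000_nt.NW.Defs

namespace Pool.Agent.Lib.MP_6aa000_nt.NW

open Finset Filter PowerSeries

/-- the series of -log(1 - z^4) -/
noncomputable def LL : ℚ⟦X⟧ := PowerSeries.mk fun n => if n % 4 = 0 then 4 / (n : ℚ) else 0

/-- the series with coefficients H_k/(4k+j) -/
noncomputable def GG (j : ℕ) : ℚ⟦X⟧ :=
  PowerSeries.mk fun n => if n % 4 = j then harmonic (n / 4) / (n : ℚ) else 0

/-- the series with coefficients 1/(4k+j) -/
noncomputable def PH (j : ℕ) : ℚ⟦X⟧ :=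
  PowerSeries.mk fun n => if n % 4 = j then 1 / (n : ℚ) else 0

/-- the polynomial multipliers -/
noncomputable def Bp (D j : ℕ) (q : ℕ → ℚ) : Polynomial ℚ :=
  ∑ l ∈ range D, Polynomial.C (q l) * Polynomial.X ^ (4 * (D - l) - j)

theorem coeff_th (f : ℚ⟦X⟧) (n : ℕ) :
    coeff n (X * PowerSeries.derivative ℚ f) = (n : ℚ) * coeff n f := by
  cases n with
  | zero => simp
  | succ n => rw [coeff_succ_X_mul, PowerSeries.coeff_derivative]; push_cast; ring

theorem coeff_dd (f : ℚ⟦X⟧) (n : ℕ) :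
    coeff n (dd f) = (n : ℚ) * coeff n f -
      if 4 ≤ n then ((n - 4 : ℕ) : ℚ) * coeff (n - 4) f else 0 := by
  rw [dd, sub_mul, one_mul, map_sub, coeff_th, coeff_X_pow_mul', coeff_th]

theorem dd_one : dd 1 = 0 := by simp [dd]

theorem dd_zero : dd 0 = 0 := by simp [dd]

theorem dd_LL : dd LL = 4 * X ^ 4 := by
  ext n
  have h4 : (4 : ℚ⟦X⟧) = C (4 : ℚ) := rfl
  rw [coeff_dd, h4, coeff_C_mul, coeff_X_pow]
  simp only [LL, coeff_mk]
  by_cases h : n % 4 = 0
  · obtain ⟨k, rfl⟩ : ∃ k, n = 4 * k := ⟨n / 4, by omega⟩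
    rcases k with _ | _ | k
    · simp
    · simp
    · have h1 : 4 * (k + 1 + 1) - 4 = 4 * (k + 1) := by omega
      rw [if_pos h, if_pos (by omega), h1, if_pos (by omega), if_neg (by omega)]
      push_cast
      field_simp
      ring
  · rw [if_neg h, if_neg (show ¬ n = 4 by omega)]
    split_ifs with h1 h2
    · omega
    · simp
    · simp

theorem dd_PH (j : ℕ) (hj : j = 1 ∨ j = 3) : dd (PH j) = X ^ j := by
  ext n
  rw [coeff_dd, coeff_X_pow]
  simp only [PH, coeff_mk]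
  by_cases h : n % 4 = j
  · obtain ⟨k, rfl⟩ : ∃ k, n = 4 * k + j := ⟨n / 4, by omega⟩
    have hj0 : (0 : ℚ) < j := by exact_mod_cast (by omega : 0 < j)
    rcases k with _ | k
    · rw [if_pos h, if_neg (by omega), if_pos (by omega)]
      push_cast
      field_simp
      ring
    · have h1 : 4 * (k + 1) + j - 4 = 4 * k + j := by omega
      rw [if_pos h, if_pos (by omega), h1, if_pos (by omega), if_neg (by omega)]
      push_cast
      field_simp
      ring
  · rw [if_neg h, if_neg (show ¬ n = j by omega)]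
    split_ifs with h1 h2
    · omega
    · simp
    · simp

theorem dd_GG (j : ℕ) (hj : j = 1 ∨ j = 3) : dd (GG j) = LL * X ^ j := by
  ext n
  rw [coeff_dd, coeff_mul_X_pow']
  simp only [GG, LL, coeff_mk]
  by_cases h : n % 4 = j
  · obtain ⟨k, rfl⟩ : ∃ k, n = 4 * k + j := ⟨n / 4, by omega⟩
    have hj0 : (0 : ℚ) < j := by exact_mod_cast (by omega : 0 < j)
    rcases k with _ | k
    · have h1 : (4 * 0 + j) / 4 = 0 := by omega
      rw [if_pos h, if_neg (by omega), if_pos (by omega), h1]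
      simp
    · have h1 : 4 * (k + 1) + j - 4 = 4 * k + j := by omega
      have h2 : 4 * (k + 1) + j - j = 4 * (k + 1) := by omega
      have h3 : (4 * (k + 1) + j) / 4 = k + 1 := by omega
      have h4 : (4 * k + j) / 4 = k := by omega
      rw [if_pos h, if_pos (by omega), h1, if_pos (by omega), if_pos (by omega), h2,
        if_pos (by omega), h3, h4, harmonic_succ]
      push_cast
      field_simp
      ring
  · rw [if_neg h]
    have h1 : (if 4 ≤ n then ((n - 4 : ℕ) : ℚ) *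
        (if (n - 4) % 4 = j then harmonic ((n - 4) / 4) / ((n - 4 : ℕ) : ℚ) else 0) else 0) = 0 := by
      split_ifs with h1 h2
      · omega
      · simp
      · rfl
    rw [h1]
    split_ifs with h2 h3
    · omega
    · simp
    · simp

theorem natDegree_Bp (D j : ℕ) (q : ℕ → ℚ) : (Bp D j q).natDegree ≤ 4 * D := by
  refine Polynomial.natDegree_sum_le_of_forall_le _ _ fun l _ => ?_
  exact (Polynomial.natDegree_C_mul_X_pow_le _ _).trans (by omega)

theorem coeff_mul_Bp (f : ℚ⟦X⟧) (D j : ℕ) (q : ℕ → ℚ) (n : ℕ) :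
    coeff n (f * (Bp D j q : ℚ⟦X⟧)) = ∑ l ∈ range D,
      q l * if 4 * (D - l) - j ≤ n then coeff (n - (4 * (D - l) - j)) f else 0 := by
  have h : (Bp D j q : ℚ⟦X⟧) = ∑ l ∈ range D, C (q l) * X ^ (4 * (D - l) - j) := by
    rw [← Polynomial.coeToPowerSeries.ringHom_apply, Bp, map_sum]
    simp
  rw [h, mul_sum, map_sum]
  refine sum_congr rfl fun l _ => ?_
  rw [mul_left_comm, coeff_C_mul, coeff_mul_X_pow']

theorem coeff_Bp_big (D j : ℕ) (hj : 1 ≤ j) (hj4 : j ≤ 4) (q : ℕ → ℚ) (m : ℕ) :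
    coeff (4 * (D + m)) (Bp D j q : ℚ⟦X⟧) = 0 := by
  rw [← one_mul (Bp D j q : ℚ⟦X⟧), coeff_mul_Bp]
  refine sum_eq_zero fun l hl => ?_
  have := mem_range.1 hl
  rw [if_pos (by omega), coeff_one, if_neg (by omega), mul_zero]

theorem coeff_Bp_self (D j : ℕ) (hj4 : j ≤ 4) (q : ℕ → ℚ) (l : ℕ) (hl : l < D) :
    coeff (4 * (D - l) - j) (Bp D j q : ℚ⟦X⟧) = q l := by
  rw [← one_mul (Bp D j q : ℚ⟦X⟧), coeff_mul_Bp, sum_eq_single l]
  · simp
  · intro b hb hne
    have := mem_range.1 hb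
    split_ifs with h
    · rw [coeff_one, if_neg (by omega), mul_zero]
    · simp
  · intro h
    exact absurd (mem_range.2 hl) h

theorem coeff_Bp_other (D j : ℕ) (hj4 : j ≤ 4) (q : ℕ → ℚ) (n : ℕ) (hn : (n + j) % 4 ≠ 0) :
    coeff n (Bp D j q : ℚ⟦X⟧) = 0 := by
  rw [← one_mul (Bp D j q : ℚ⟦X⟧), coeff_mul_Bp]
  refine sum_eq_zero fun l hl => ?_
  have := mem_range.1 hl
  split_ifs with h
  · rw [coeff_one, if_neg (by omega), mul_zero]
  · simp

theorem Bp_zero (D j : ℕ) (q : ℕ → ℚ) (h : ∀ l < D, q l = 0) : Bp D j q = 0 :=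
  sum_eq_zero fun l hl => by simp [h l (mem_range.1 hl)]

theorem coeff_LL_Bp (D : ℕ) (q : ℕ → ℚ) (m : ℕ) :
    coeff (4 * (D + m)) (LL * (Bp D 4 q : ℚ⟦X⟧)) = ∑ l ∈ range D, q l * a 0 (l + m) := by
  rw [coeff_mul_Bp]
  refine sum_congr rfl fun l hl => ?_
  have := mem_range.1 hl
  have h1 : 4 * (D + m) - (4 * (D - l) - 4) = 4 * (l + m + 1) := by omega
  rw [if_pos (by omega), h1, LL, coeff_mk, if_pos (by omega), a_zero]
  push_cast
  field_simp

theorem coeff_GG_Bp (D j : ℕ) (hj : j = 1 ∨ j = 3) (q : ℕ → ℚ) (m : ℕ) :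
    coeff (4 * (D + m)) (GG j * (Bp D j q : ℚ⟦X⟧)) =
      ∑ l ∈ range D, q l * (harmonic (l + m) * c j (l + m)) := by
  rw [coeff_mul_Bp]
  refine sum_congr rfl fun l hl => ?_
  have := mem_range.1 hl
  have h1 : 4 * (D + m) - (4 * (D - l) - j) = 4 * (l + m) + j := by omega
  have h2 : (4 * (l + m) + j) / 4 = l + m := by omega
  rw [if_pos (by omega), h1, GG, coeff_mk, if_pos (by omega), h2, c]
  push_cast
  ring

theorem coeff_PH_Bp (D j : ℕ) (hj : j = 1 ∨ j = 3) (q : ℕ → ℚ) (m : ℕ) :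
    coeff (4 * (D + m)) (PH j * (Bp D j q : ℚ⟦X⟧)) = ∑ l ∈ range D, q l * c j (l + m) := by
  rw [coeff_mul_Bp]
  refine sum_congr rfl fun l hl => ?_
  have := mem_range.1 hl
  have h1 : 4 * (D + m) - (4 * (D - l) - j) = 4 * (l + m) + j := by omega
  rw [if_pos (by omega), h1, PH, coeff_mk, if_pos (by omega), c]
  push_cast
  ring

theorem coeff_LL_off (D : ℕ) (q : ℕ → ℚ) (n : ℕ) (hn : n % 4 ≠ 0) :
    coeff n (LL * (Bp D 4 q : ℚ⟦X⟧)) = 0 := by
  rw [coeff_mul_Bp]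
  refine sum_eq_zero fun l hl => ?_
  have := mem_range.1 hl
  split_ifs with h
  · rw [LL, coeff_mk, if_neg (by omega), mul_zero]
  · simp

theorem coeff_GG_off (D j : ℕ) (q : ℕ → ℚ) (n : ℕ) (hn : n % 4 ≠ 0) :
    coeff n (GG j * (Bp D j q : ℚ⟦X⟧)) = 0 := by
  rw [coeff_mul_Bp]
  refine sum_eq_zero fun l hl => ?_
  have := mem_range.1 hl
  split_ifs with h
  · rw [GG, coeff_mk, if_neg (by omega), mul_zero]
  · simp

end Pool.Agent.Lib.MP_6aa000_nt.NW
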